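import Pool.Agent.Lib.MP_8e5b3d_co.Bruhat

set_option autoImplicit false

namespace Pool.Agent.Lib.MP_8e5b3d_co

open LaurentPolynomial

variable {B W : Type} [Group W] {M : CoxeterMatrix B} (cs : CoxeterSystem M W)

theorem T_neg_mul_two : (T (-2) : ℤ[T;T⁻¹]) * T 2 = 1 := by
  rw [← T_add]; simp

theorem mulTinv_comm (hM : RA M) {s t : B} (h : M s t = 2) :
    Commute (mulTinv cs s) (mulTinv cs t) := by
  have h1 := mulT_comm cs hM (T 2 : ℤ[T;T⁻¹]) h
  unfold mulTinv
  refine Commute.add_left (Commute.add_right ?_ ?_) (Commute.add_right ?_ ?_)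
  · exact (h1.smul_left _).smul_right _
  · exact ((Commute.one_right _).smul_left _).smul_right _
  · exact ((Commute.one_left _).smul_left _).smul_right _
  · exact ((Commute.one_left _).smul_left _).smul_right _

theorem barT_of_reduced (hM : RA M) {ω : List B} (h : cs.IsReduced ω) :
    barT cs (cs.wordProd ω) = opi cs ω (Finsupp.single 1 1) := by
  obtain ⟨h1, h2⟩ := (cs.exists_isReduced (cs.wordProd ω)).choose_spec
  rw [barT_eq]
  unfold opi
  rw [matsumoto cs hM (mulTinv cs) (fun s t hst => mulTinv_comm cs hM hst) h1 h h2.symm]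

theorem barT_up (hM : RA M) (s : B) (u : W) (h : cs.length u < cs.length (cs.simple s * u)) :
    barT cs (cs.simple s * u) = mulTinv cs s (barT cs u) := by
  obtain ⟨ω, hω, rfl⟩ := cs.exists_isReduced u
  have h1 : cs.IsReduced (s :: ω) := by
    unfold CoxeterSystem.IsReduced
    have := cs.length_simple_mul (cs.wordProd ω) s
    have := hω.eq
    rw [cs.wordProd_cons, List.length_cons]
    omega
  rw [← cs.wordProd_cons, barT_of_reduced cs hM h1, barT_of_reduced cs hM hω, opi_cons,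
    Module.End.mul_apply]

theorem mulTinv_sq (s : B) (h : W →₀ ℤ[T;T⁻¹]) :
    mulTinv cs s (mulTinv cs s h) =
      ((T (-2) : ℤ[T;T⁻¹]) - 1) • mulTinv cs s h + (T (-2) : ℤ[T;T⁻¹]) • h := by
  have h1 : mulT cs (T 2 : ℤ[T;T⁻¹]) s (mulT cs (T 2) s h) =
      ((T 2 : ℤ[T;T⁻¹]) - 1) • mulT cs (T 2) s h + (T 2 : ℤ[T;T⁻¹]) • h := by
    have := congrArg (fun f : Module.End ℤ[T;T⁻¹] (W →₀ ℤ[T;T⁻¹]) => f h)
      (mulT_sq cs (T 2 : ℤ[T;T⁻¹]) s)
    simpa using this
  have h2 := T_neg_mul_two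
  simp only [mulTinv, LinearMap.add_apply, LinearMap.smul_apply, Module.End.one_apply, map_add,
    map_smul, h1]
  generalize mulT cs (T 2 : ℤ[T;T⁻¹]) s h = g
  generalize (T (-2) : ℤ[T;T⁻¹]) = p at h2 ⊢
  generalize (T 2 : ℤ[T;T⁻¹]) = r at h2 ⊢
  ext u : 1
  simp only [Finsupp.add_apply, Finsupp.smul_apply, smul_eq_mul]
  linear_combination (p * g u + p * h u) * h2

theorem bar_mulT (hM : RA M) (s : B) (h : W →₀ ℤ[T;T⁻¹]) :
    bar cs (mulT cs (T 2) s h) = mulTinv cs s (bar cs h) := by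
  induction h using Finsupp.induction_linear with
  | zero => simp
  | add f g hf hg => rw [map_add, bar_add, bar_add, hf, hg, map_add]
  | single u a =>
    rw [mulT_single, bar_single, map_smul]
    split_ifs with h1
    · rw [bar_single, barT_up cs hM s u h1]
    · have h2 := cs.length_simple_mul_ne u s
      have h3 := barT_up cs hM s (cs.simple s * u)
        (by rw [cs.simple_mul_simple_cancel_left]; omega)
      rw [cs.simple_mul_simple_cancel_left] at h3
      rw [bar_add, bar_smul, bar_smul, bar_single, bar_single, h3, mulTinv_sq, map_sub, invert_T,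
        map_one, smul_add, smul_comm (invert a), smul_comm (invert a)]

/-- Operators that are bar-invariant up to a power of `q`. -/
def BI (f : Module.End ℤ[T;T⁻¹] (W →₀ ℤ[T;T⁻¹])) (n : ℕ) : Prop :=
  ∀ h, bar cs (f h) = (T (-2 * (n : ℤ)) : ℤ[T;T⁻¹]) • f (bar cs h)

variable {cs}

theorem BI.one : BI cs 1 0 := fun h => by simp

theorem BI.zero (n : ℕ) : BI cs 0 n := fun h => by simp

theorem BI.mul {f g : Module.End ℤ[T;T⁻¹] (W →₀ ℤ[T;T⁻¹])} {m n : ℕ} (hf : BI cs f m)
    (hg : BI cs g n) : BI cs (f * g) (m + n) := by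
  intro h
  rw [Module.End.mul_apply, Module.End.mul_apply, hf, hg, map_smul, smul_smul, ← T_add]
  congr 2
  push_cast
  ring

theorem BI.sub_q {f f' g : Module.End ℤ[T;T⁻¹] (W →₀ ℤ[T;T⁻¹])} {n : ℕ}
    (he : f = f' + (T 2 : ℤ[T;T⁻¹]) • g) (hf : BI cs f (n + 2)) (hg : BI cs g n) :
    BI cs f' (n + 2) := by
  intro h
  have e : ∀ y, f' y = f y - (T 2 : ℤ[T;T⁻¹]) • g y := fun y => by
    rw [he, LinearMap.add_apply, LinearMap.smul_apply, add_sub_cancel_right]
  rw [e, e, bar_sub, hf, bar_smul, hg, invert_T, smul_sub, smul_smul, smul_smul, ← T_add, ← T_add]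
  congr 3
  push_cast
  ring

theorem BI.gen (hM : RA M) (s : B) : BI cs (1 + mulT cs (T 2) s) 1 := by
  intro h
  rw [LinearMap.add_apply, LinearMap.add_apply, Module.End.one_apply, Module.End.one_apply,
    bar_add, bar_mulT cs hM]
  simp only [mulTinv, LinearMap.add_apply, LinearMap.smul_apply, Module.End.one_apply]
  have : (-2 * ((1 : ℕ) : ℤ)) = -2 := by norm_num
  rw [this]
  module

theorem BI.cancel {f : Module.End ℤ[T;T⁻¹] (W →₀ ℤ[T;T⁻¹])} {n : ℕ}
    (hf : BI cs ((1 + T 2 : ℤ[T;T⁻¹]) • f) (n + 1)) : BI cs f n := by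
  intro h
  have h1 := hf h
  rw [LinearMap.smul_apply, LinearMap.smul_apply, bar_smul, map_add, map_one, invert_T,
    smul_smul] at h1
  have e : (T (-2 * ((n + 1 : ℕ) : ℤ)) : ℤ[T;T⁻¹]) * (1 + T 2) =
      (1 + T (-2)) * T (-2 * (n : ℤ)) := by
    rw [mul_add, add_mul, mul_one, one_mul, ← T_add, ← T_add, add_comm]
    congr 2
    · push_cast; ring
    · push_cast; ring
  rw [e, mul_smul] at h1
  have hne : (1 + T (-2) : ℤ[T;T⁻¹]) ≠ 0 := by
    intro h0
    have := congrArg (fun f : ℤ[T;T⁻¹] => f.coeff 0) h0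
    simp only [AddMonoidAlgebra.coeff_add, Finsupp.add_apply, T_apply, ← T_zero] at this
    simp at this
  exact smul_right_injective _ hne h1

section Dihedral

variable {A R : Type} [CommRing A] [Ring R] [Algebra A R] (q : A) (g : ℕ → R) (x : ℕ → R)

theorem dihedral_left (hg : ∀ j, g (j + 2) = g j)
    (hq : ∀ j, g j * g j = (q - 1) • g j + q • (1 : R)) (x0 : x 0 = 1)
    (xs : ∀ j, x (j + 1) = g j * x j) (j : ℕ) :
    (1 + g j) * ((∑ r ∈ Finset.range (j + 1), x r) * (1 + g 1)) =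
      (∑ r ∈ Finset.range (j + 2), x r) * (1 + g 1) +
        q • ((∑ r ∈ Finset.range j, x r) * (1 + g 1)) := by
  induction j using Nat.twoStepInduction with
  | zero => simp [Finset.sum_range_succ, x0, xs]
  | one =>
    have x1 : x 1 = g 0 := by rw [xs, x0, mul_one]
    have x2 : x 2 = g 1 * g 0 := by rw [xs, x1]
    have e : (1 + g 1) * (1 + g 1) = (1 + g 1) + q • (1 + g 1) := by
      rw [add_mul, one_mul, mul_add, mul_one, hq]
      module
    simp only [Finset.sum_range_succ, Finset.range_zero, Finset.sum_empty, x0, x1, x2, zero_add,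
      one_mul]
    rw [add_mul 1 (g 0), one_mul, mul_add (1 + g 1), e, add_mul (1 + g 0), add_mul 1 (g 0),
      one_mul, add_mul 1 (g 1), one_mul, mul_assoc]
    abel
  | more j ih _ =>
    have e : g j * x (j + 1) = (q - 1) • x (j + 1) + q • x j := by
      rw [xs, ← mul_assoc, hq, add_mul, smul_mul_assoc, smul_mul_assoc, one_mul]
    have e3 : x (j + 3) = g j * x (j + 2) := by rw [xs, hg]
    have e2 : (1 + g j) * (x (j + 1) + x (j + 2)) =
        x (j + 2) + x (j + 3) + q • (x j + x (j + 1)) := by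
      rw [add_mul, one_mul, mul_add, e, ← e3]
      module
    have s1 : ∑ r ∈ Finset.range (j + 2 + 1), x r =
        ∑ r ∈ Finset.range (j + 1), x r + (x (j + 1) + x (j + 2)) := by
      rw [Finset.sum_range_succ, Finset.sum_range_succ, add_assoc]
    have s2 : ∑ r ∈ Finset.range (j + 2 + 2), x r =
        ∑ r ∈ Finset.range (j + 2), x r + (x (j + 2) + x (j + 3)) := by
      rw [Finset.sum_range_succ, Finset.sum_range_succ, add_assoc]
    have s3 : ∑ r ∈ Finset.range (j + 2), x r =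
        ∑ r ∈ Finset.range j, x r + (x j + x (j + 1)) := by
      simp only [Finset.sum_range_succ, add_assoc]
    rw [hg, s1, s2, add_mul (∑ r ∈ Finset.range (j + 1), x r), mul_add (1 + g j), ih,
      ← mul_assoc, e2]
    conv_rhs => rw [add_mul (∑ r ∈ Finset.range (j + 2), x r)]
    conv_rhs => arg 2; rw [s3, add_mul, smul_add]
    rw [add_mul _ (q • (x j + x (j + 1))), smul_mul_assoc]
    abel

theorem dihedral_right (hg : ∀ j, g (j + 2) = g j)
    (hq : ∀ j, g j * g j = (q - 1) • g j + q • (1 : R)) (x0 : x 0 = 1)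
    (xs : ∀ j, x (j + 1) = x j * g j) (j : ℕ) :
    ((1 + g 1) * (∑ r ∈ Finset.range (j + 1), x r)) * (1 + g j) =
      (1 + g 1) * (∑ r ∈ Finset.range (j + 2), x r) +
        q • ((1 + g 1) * (∑ r ∈ Finset.range j, x r)) := by
  have := dihedral_left q (fun j => MulOpposite.op (g j)) (fun j => MulOpposite.op (x j))
    (fun j => by rw [hg]) (fun j => by
      rw [← MulOpposite.op_mul, hq]; rfl) (by rw [x0]; rfl)
    (fun j => by rw [xs]; rfl) j
  apply MulOpposite.op_injective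
  simpa [Finset.op_sum] using this

end Dihedral

theorem BI.dihedral_left {g x : ℕ → Module.End ℤ[T;T⁻¹] (W →₀ ℤ[T;T⁻¹])}
    (hg : ∀ j, g (j + 2) = g j)
    (hq : ∀ j, g j * g j = ((T 2 : ℤ[T;T⁻¹]) - 1) • g j + (T 2 : ℤ[T;T⁻¹]) • 1) (x0 : x 0 = 1)
    (xs : ∀ j, x (j + 1) = g j * x j) (hb : ∀ j, BI cs (1 + g j) 1) (j : ℕ) :
    BI cs ((∑ r ∈ Finset.range j, x r) * (1 + g 1)) j := by
  induction j using Nat.twoStepInduction with
  | zero => simpa using BI.zero 0
  | one => simpa [x0] using hb 1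
  | more j ih1 ih2 =>
    refine BI.sub_q (MP_8e5b3d_co.dihedral_left _ g x hg hq x0 xs j) ?_ ih1
    have := (hb j).mul ih2
    rwa [add_comm 1 (j + 1)] at this

theorem BI.dihedral_right {g x : ℕ → Module.End ℤ[T;T⁻¹] (W →₀ ℤ[T;T⁻¹])}
    (hg : ∀ j, g (j + 2) = g j)
    (hq : ∀ j, g j * g j = ((T 2 : ℤ[T;T⁻¹]) - 1) • g j + (T 2 : ℤ[T;T⁻¹]) • 1) (x0 : x 0 = 1)
    (xs : ∀ j, x (j + 1) = x j * g j) (hb : ∀ j, BI cs (1 + g j) 1) (j : ℕ) :
    BI cs ((1 + g 1) * (∑ r ∈ Finset.range j, x r)) j := by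
  induction j using Nat.twoStepInduction with
  | zero => simpa using BI.zero 0
  | one => simpa [x0] using hb 1
  | more j ih1 ih2 =>
    refine BI.sub_q (MP_8e5b3d_co.dihedral_right _ g x hg hq x0 xs j) ?_ ih1
    have := ih2.mul (hb j)
    rwa [add_assoc j 1 1, one_add_one_eq_two] at this

end Pool.Agent.Lib.MP_8e5b3d_co
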