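import Pool.Agent.Lib.MP_8e5b3d_co.RightAngled

set_option autoImplicit false

namespace Pool.Agent.Lib.MP_8e5b3d_co

variable {B W : Type} [Group W] {M : CoxeterMatrix B} (cs : CoxeterSystem M W)

theorem LD.concat {s r : B} {ζ : List B} (h : LD M s (ζ ++ [r])) :
    LD M s ζ ∨ (s = r ∧ ∀ t ∈ ζ, M s t = 2) := by
  induction ζ with
  | nil =>
    rcases h with h | ⟨_, h⟩
    · exact Or.inr ⟨h, by simp⟩
    · exact h.elim
  | cons t ζ ih =>
    rcases h with h | ⟨h1, h2⟩
    · exact Or.inl (Or.inl h)
    · rcases ih h2 with h3 | ⟨h3, h4⟩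
      · exact Or.inl (Or.inr ⟨h1, h3⟩)
      · refine Or.inr ⟨h3, fun x hx => ?_⟩
        rcases List.mem_cons.mp hx with rfl | hx
        · exact h1
        · exact h4 x hx

theorem wall_cross (hM : RA M) (z : W) (s r : B) (h1 : ¬ cs.IsLeftDescent z s)
    (h2 : cs.IsLeftDescent (z * cs.simple r) s) : cs.simple s * z = z * cs.simple r := by
  obtain ⟨ζ, hζ, rfl⟩ := cs.exists_isReduced z
  rcases cs.length_mul_simple (cs.wordProd ζ) r with hl | hl
  · have e : cs.wordProd (ζ ++ [r]) = cs.wordProd ζ * cs.simple r := by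
      rw [cs.wordProd_append, cs.wordProd_singleton]
    have hred : cs.IsReduced (ζ ++ [r]) := by
      unfold CoxeterSystem.IsReduced
      rw [e, hl, hζ.eq]
      simp
    rcases (LD_of_descent cs hM hred (by rw [e]; exact h2)).concat with h3 | ⟨rfl, h4⟩
    · exfalso
      apply h1
      unfold CoxeterSystem.IsLeftDescent
      rw [hζ.eq]
      exact h3.lt cs
    · rw [← e, wordProd_move cs [] h4, List.append_nil]
  · exfalso
    have a1 := cs.not_isLeftDescent_iff.mp h1
    unfold CoxeterSystem.IsLeftDescent at h2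
    have a2 := cs.length_mul_simple (cs.simple s * cs.wordProd ζ) r
    rw [mul_assoc] at a2
    omega

theorem wall_cross' (hM : RA M) (z : W) (s r : B)
    (h : ¬ (cs.IsLeftDescent z s ↔ cs.IsLeftDescent (z * cs.simple r) s)) :
    cs.simple s * z = z * cs.simple r := by
  by_cases h1 : cs.IsLeftDescent z s
  · have h2 : ¬ cs.IsLeftDescent (z * cs.simple r) s := fun h2 => h ⟨fun _ => h2, fun _ => h1⟩
    have := wall_cross cs hM (z * cs.simple r) s r h2
      (by rw [cs.simple_mul_simple_cancel_right]; exact h1)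
    rw [cs.simple_mul_simple_cancel_right, ← mul_assoc] at this
    have h3 := congrArg (· * cs.simple r) this
    simp only [cs.simple_mul_simple_cancel_right] at h3
    exact h3
  · refine wall_cross cs hM z s r h1 ?_
    by_contra h2
    exact h ⟨fun h3 => absurd h3 h1, fun h3 => absurd h3 h2⟩

theorem walk (hM : RA M) (g : W) (s : B) (ω : List B)
    (h : ¬ (cs.IsLeftDescent g⁻¹ s ↔ cs.IsLeftDescent (g⁻¹ * cs.wordProd ω) s)) :
    ∃ a r b, ω = a ++ r :: b ∧ g * cs.simple s * g⁻¹ * cs.wordProd ω = cs.wordProd (a ++ b) := by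
  induction ω using List.reverseRecOn with
  | nil => simp at h
  | append_singleton ω r ih =>
    rw [cs.wordProd_append, cs.wordProd_singleton, ← mul_assoc] at h
    by_cases h1 : cs.IsLeftDescent g⁻¹ s ↔ cs.IsLeftDescent (g⁻¹ * cs.wordProd ω) s
    · have h2 := wall_cross' cs hM (g⁻¹ * cs.wordProd ω) s r (by rw [← h1]; exact h)
      refine ⟨ω, r, [], rfl, ?_⟩
      rw [List.append_nil, cs.wordProd_append, cs.wordProd_singleton]
      calc g * cs.simple s * g⁻¹ * (cs.wordProd ω * cs.simple r)
          = g * (cs.simple s * (g⁻¹ * cs.wordProd ω)) * cs.simple r := by group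
        _ = cs.wordProd ω := by
          rw [h2, mul_assoc g, cs.simple_mul_simple_cancel_right, mul_inv_cancel_left]
    · obtain ⟨a, t, b, rfl, he⟩ := ih h1
      refine ⟨a, t, b ++ [r], by simp, ?_⟩
      rw [cs.wordProd_append _ [r], ← mul_assoc, he, ← cs.wordProd_append, List.append_assoc]

theorem strong_exchange (hM : RA M) {ω : List B} {t : W}
    (ht : cs.IsReflection t) (hl : cs.length (t * cs.wordProd ω) < cs.length (cs.wordProd ω)) :
    ∃ a r b, ω = a ++ r :: b ∧ t * cs.wordProd ω = cs.wordProd (a ++ b) := by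
  obtain ⟨g, s, rfl⟩ := ht
  by_cases h1 : cs.IsLeftDescent g⁻¹ s ↔ cs.IsLeftDescent (g⁻¹ * cs.wordProd ω) s
  · exfalso
    obtain ⟨η, h2, h3⟩ := cs.exists_isReduced (g * cs.simple s * g⁻¹ * cs.wordProd ω)
    have e : g⁻¹ * cs.wordProd η = cs.simple s * (g⁻¹ * cs.wordProd ω) := by
      rw [← h3]
      group
    obtain ⟨a, r, b, h4, h5⟩ := walk cs hM g s η (by
      rw [e, h1]
      have := cs.isLeftDescent_iff_not_isLeftDescent_mul (w := g⁻¹ * cs.wordProd ω) (i := s)
      tauto)
    have e2 : g * cs.simple s * g⁻¹ * cs.wordProd η = cs.wordProd ω := by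
      rw [← h3]
      calc g * cs.simple s * g⁻¹ * (g * cs.simple s * g⁻¹ * cs.wordProd ω)
          = g * (cs.simple s * cs.simple s) * g⁻¹ * cs.wordProd ω := by group
        _ = cs.wordProd ω := by rw [cs.simple_mul_simple_self]; group
    have a1 := cs.length_wordProd_le (a ++ b)
    have a2 := h2.eq
    rw [← h5, e2] at a1
    rw [h3, a2, h4] at hl
    simp only [List.length_append, List.length_cons] at a1 hl
    omega
  · exact walk cs hM g s ω h1

theorem bruhat_simple {x : W} {s : B} (h : cs.length x < cs.length (cs.simple s * x)) :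
    BruhatLE cs x (cs.simple s * x) :=
  Relation.ReflTransGen.single ⟨_, cs.isReflection_simple s, rfl, h⟩

theorem lift_edge (hM : RA M) (s : B) {x t : W} (ht : cs.IsReflection t)
    (hl : cs.length x < cs.length (t * x)) :
    BruhatLE cs (cs.simple s * x) (t * x) ∨
      BruhatLE cs (cs.simple s * x) (cs.simple s * (t * x)) := by
  have ht' := ht.conj (cs.simple s)
  have e : cs.simple s * t * (cs.simple s)⁻¹ * (cs.simple s * x) = cs.simple s * (t * x) := by
    group
  by_cases h1 : cs.length (cs.simple s * x) < cs.length (cs.simple s * (t * x))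
  · exact Or.inr (Relation.ReflTransGen.single ⟨_, ht', e.symm, h1⟩)
  left
  rcases cs.length_simple_mul x s with h2 | h2
  · have h3 := ht'.length_mul_right_ne (cs.simple s * x)
    rw [e] at h3
    obtain ⟨ω, hω, rfl⟩ := cs.exists_isReduced x
    obtain ⟨a, r, b, h4, h5⟩ := strong_exchange cs hM (ω := s :: ω) ht'
      (by rw [cs.wordProd_cons, e]; omega)
    rw [cs.wordProd_cons, e] at h5
    cases a with
    | nil =>
      simp only [List.nil_append, List.cons.injEq] at h4 h5
      obtain ⟨rfl, rfl⟩ := h4
      have : t * cs.wordProd ω = cs.simple s * cs.wordProd ω := by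
        rw [← cs.simple_mul_simple_cancel_left (w := t * cs.wordProd ω) s, h5]
      rw [this]
      exact Relation.ReflTransGen.refl
    | cons c a =>
      exfalso
      simp only [List.cons_append, List.cons.injEq] at h4
      obtain ⟨rfl, rfl⟩ := h4
      rw [List.cons_append, cs.wordProd_cons] at h5
      have h6 := mul_left_cancel h5
      have a1 := cs.length_wordProd_le (a ++ b)
      have a2 := hω.eq
      rw [h6, a2] at hl
      simp only [List.length_append, List.length_cons] at a1 hl
      omega
  · have h3 : BruhatLE cs (cs.simple s * x) x := by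
      have := bruhat_simple cs (x := cs.simple s * x) (s := s)
        (by rw [cs.simple_mul_simple_cancel_left]; omega)
      rwa [cs.simple_mul_simple_cancel_left] at this
    exact Relation.ReflTransGen.tail h3 ⟨t, ht, rfl, hl⟩

theorem lift_le (hM : RA M) (s : B) {x y : W} (h : BruhatLE cs x y) :
    BruhatLE cs (cs.simple s * x) y ∨ BruhatLE cs (cs.simple s * x) (cs.simple s * y) := by
  induction h with
  | refl => exact Or.inr Relation.ReflTransGen.refl
  | tail _ hbc ih =>
    obtain ⟨t, ht, rfl, hl⟩ := hbc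
    rcases ih with ih | ih
    · exact Or.inl (Relation.ReflTransGen.tail ih ⟨t, ht, rfl, hl⟩)
    · rcases lift_edge cs hM s ht hl with h | h
      · exact Or.inl (Relation.ReflTransGen.trans ih h)
      · exact Or.inr (Relation.ReflTransGen.trans ih h)

/-- The subword property, one direction. -/
theorem bruhat_of_sublist (hM : RA M) {η ω : List B} (h : η.Sublist ω) (hω : cs.IsReduced ω) :
    BruhatLE cs (cs.wordProd η) (cs.wordProd ω) := by
  induction h with
  | slnil => exact Relation.ReflTransGen.refl
  | cons s _ ih =>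
    obtain ⟨h1, h2⟩ := reduced_cons hω
    rw [cs.wordProd_cons]
    exact Relation.ReflTransGen.trans (ih h1) (bruhat_simple cs h2)
  | cons_cons s _ ih =>
    obtain ⟨h1, h2⟩ := reduced_cons hω
    rw [cs.wordProd_cons, cs.wordProd_cons]
    rcases lift_le cs hM s (ih h1) with h | h
    · exact Relation.ReflTransGen.trans h (bruhat_simple cs h2)
    · exact h

end Pool.Agent.Lib.MP_8e5b3d_co
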