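import Mathlib

set_option autoImplicit false

namespace Pool.Agent.Lib.MP_8e5b3d_co

open LaurentPolynomial

variable {B W : Type} [Group W] {M : CoxeterMatrix B} (cs : CoxeterSystem M W)

/-- The strong Bruhat order: the reflexive-transitive closure of the relation
`x → t x` for reflections `t` with `ℓ(x) < ℓ(t x)`. -/
def BruhatLE (u v : W) : Prop :=
  Relation.ReflTransGen
    (fun x y => ∃ t, cs.IsReflection t ∧ y = t * x ∧ cs.length x < cs.length y) u v

/-- Left multiplication by `T_s` (`s` the simple reflection `i`) on the Hecke algebra with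
parameter `q`, realised as the free `R`-module with basis `T_w = single w 1`:
`T_s T_w = T_{sw}` if `ℓ(sw) > ℓ(w)`, and `T_s T_w = (q-1) T_w + q T_{sw}` otherwise. -/
noncomputable def mulT {R : Type} [CommRing R] (q : R) (i : B) : Module.End R (W →₀ R) :=
  Finsupp.linearCombination R fun w =>
    if cs.length w < cs.length (cs.simple i * w) then Finsupp.single (cs.simple i * w) 1
    else (q - 1) • Finsupp.single w 1 + q • Finsupp.single (cs.simple i * w) 1

/-- Left multiplication by `T_s⁻¹ = q⁻¹ T_s + (q⁻¹ - 1)` over `ℤ[q^{1/2}, q^{-1/2}]`,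
the ring of Laurent polynomials in `T 1 = q^{1/2}`. -/
noncomputable def mulTinv (i : B) : Module.End ℤ[T;T⁻¹] (W →₀ ℤ[T;T⁻¹]) :=
  (T (-2) : ℤ[T;T⁻¹]) • mulT cs (T 2) i + ((T (-2) : ℤ[T;T⁻¹]) - 1) • 1

/-- The element `T_{w⁻¹}⁻¹ = T_{s_1}⁻¹ ⋯ T_{s_k}⁻¹` for a reduced word `w = s_1 ⋯ s_k`. -/
noncomputable def barT (w : W) : W →₀ ℤ[T;T⁻¹] :=
  (((cs.exists_isReduced w).choose.map (mulTinv cs)).prod : Module.End ℤ[T;T⁻¹] (W →₀ ℤ[T;T⁻¹]))
    (Finsupp.single 1 1)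

/-- The bar involution: `q^{1/2} ↦ q^{-1/2}` and `T_w ↦ T_{w⁻¹}⁻¹`. -/
noncomputable def bar (h : W →₀ ℤ[T;T⁻¹]) : W →₀ ℤ[T;T⁻¹] :=
  h.sum fun u a => invert a • barT cs u

/-- `P u = P_{u,v}` for all `u`: the four defining properties of the Kazhdan-Lusztig
polynomials with upper index `v`. -/
def IsKLColumn (v : W) (P : W → Polynomial ℤ) : Prop :=
  P v = 1 ∧ (∀ u, ¬ BruhatLE cs u v → P u = 0) ∧
  (∀ u, BruhatLE cs u v → u ≠ v → 2 * (P u).natDegree + cs.length u + 1 ≤ cs.length v) ∧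
  ∃ C : W →₀ ℤ[T;T⁻¹],
    (∀ u, C u = T (-(cs.length v : ℤ)) * Polynomial.aeval (T 2 : ℤ[T;T⁻¹]) (P u)) ∧ bar cs C = C

end Pool.Agent.Lib.MP_8e5b3d_co
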