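import Mathlib

set_option autoImplicit false

/-! Clique polynomials: closure under joins and disjoint unions, and the polynomials whose
coefficients satisfy the Kruskal-Katona type inequalities up to a constant factor. -/

namespace Pool.Agent.Lib.MP_8e5b3d_co

open Polynomial

open Classical in
/-- `f` is the clique polynomial of a finite simple graph. -/
def IsClq (f : ℤ[X]) : Prop :=
  ∃ (ι : Type) (_ : Fintype ι) (G : SimpleGraph ι),
    f = ∑ S : Finset ι, if G.IsClique (S : Set ι) then X ^ S.card else 0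

/-- Two graphs side by side, with all or none of the edges between them. -/
def glue {ι κ : Type} (G : SimpleGraph ι) (H : SimpleGraph κ) (p : Prop) : SimpleGraph (ι ⊕ κ) where
  Adj
    | .inl a, .inl b => G.Adj a b
    | .inr a, .inr b => H.Adj a b
    | _, _ => p
  symm := ⟨by
    rintro (a | a) (b | b) h
    · exact G.adj_symm h
    · exact h
    · exact h
    · exact H.adj_symm h⟩
  loopless := ⟨by
    rintro (a | a) h
    · exact G.irrefl h
    · exact H.irrefl h⟩

theorem glue_clique {ι κ : Type} (G : SimpleGraph ι) (H : SimpleGraph κ) (p : Prop)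
    (S : Finset ι) (T : Finset κ) :
    (glue G H p).IsClique (S.disjSum T : Set (ι ⊕ κ)) ↔
      G.IsClique (S : Set ι) ∧ H.IsClique (T : Set κ) ∧ (p ∨ S = ∅ ∨ T = ∅) := by
  constructor
  · intro h
    refine ⟨fun a ha b hb hab => ?_, fun a ha b hb hab => ?_, ?_⟩
    · exact h (x := .inl a) (by simpa using ha) (y := .inl b) (by simpa using hb) (by simpa using hab)
    · exact h (x := .inr a) (by simpa using ha) (y := .inr b) (by simpa using hb) (by simpa using hab)
    · by_contra hc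
      push Not at hc
      obtain ⟨h1, ⟨a, ha⟩, ⟨b, hb⟩⟩ := hc
      exact h1 (h (x := .inl a) (by simpa using ha) (y := .inr b) (by simpa using hb) (by simp))
  · rintro ⟨h1, h2, h3⟩ (a | a) ha (b | b) hb hab
    · exact h1 (by simpa using ha) (by simpa using hb) (by simpa using hab)
    · rcases h3 with h3 | rfl | rfl
      · exact h3
      · simp at ha
      · simp at hb
    · rcases h3 with h3 | rfl | rfl
      · exact h3
      · simp at hb
      · simp at ha
    · exact h2 (by simpa using ha) (by simpa using hb) (by simpa using hab)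

open Classical in
theorem sum_glue {ι κ : Type} [Fintype ι] [Fintype κ] (G : SimpleGraph ι) (H : SimpleGraph κ)
    (p : Prop) :
    (∑ U : Finset (ι ⊕ κ), if (glue G H p).IsClique (U : Set (ι ⊕ κ)) then
      (X : ℤ[X]) ^ U.card else 0) =
    ∑ S : Finset ι, ∑ T : Finset κ, if p ∨ S = ∅ ∨ T = ∅ then
      (if G.IsClique (S : Set ι) then X ^ S.card else 0) *
        (if H.IsClique (T : Set κ) then X ^ T.card else 0) else 0 := by
  rw [← Fintype.sum_prod_type', ← (Finset.sumEquiv (α := ι) (β := κ)).symm.toEquiv.sum_comp]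
  refine Finset.sum_congr rfl fun x _ => ?_
  have e : (Finset.sumEquiv (α := ι) (β := κ)).symm.toEquiv x = x.1.disjSum x.2 := rfl
  rw [e, Finset.card_disjSum, pow_add]
  by_cases h1 : G.IsClique (x.1 : Set ι) <;> by_cases h2 : H.IsClique (x.2 : Set κ) <;>
    by_cases h3 : p ∨ x.1 = ∅ ∨ x.2 = ∅ <;>
    simp only [glue_clique, h1, h2, h3, and_self, if_true, if_false, false_and,
      and_false, mul_zero, zero_mul]

theorem IsClq.mul {f g : ℤ[X]} (hf : IsClq f) (hg : IsClq g) : IsClq (f * g) := by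
  obtain ⟨ι, _, G, rfl⟩ := hf
  obtain ⟨κ, _, H, rfl⟩ := hg
  refine ⟨ι ⊕ κ, inferInstance, glue G H True, ?_⟩
  rw [Finset.sum_mul_sum]
  convert (sum_glue G H True).symm using 3
  simp

theorem IsClq.wedge {f g : ℤ[X]} (hf : IsClq f) (hg : IsClq g) : IsClq (f + g - 1) := by
  classical
  obtain ⟨ι, _, G, rfl⟩ := hf
  obtain ⟨κ, _, H, rfl⟩ := hg
  refine ⟨ι ⊕ κ, inferInstance, glue G H False, ?_⟩
  have key : ∀ (a : Finset ι → ℤ[X]) (b : Finset κ → ℤ[X]), a ∅ = 1 → b ∅ = 1 →
      (∑ S, a S) + (∑ T, b T) - 1 =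
        ∑ S, ∑ T, if False ∨ S = ∅ ∨ T = ∅ then a S * b T else 0 := fun a b ha hb => by
    have e : ∀ S T, (if False ∨ S = ∅ ∨ T = ∅ then a S * b T else 0) =
        (if T = ∅ then a S else 0) + (if S = ∅ then b T else 0) -
          (if S = ∅ then (if T = ∅ then 1 else 0) else 0) := fun S T => by
      by_cases h1 : S = ∅ <;> by_cases h2 : T = ∅ <;> simp [h1, h2, ha, hb]
    simp only [e, Finset.sum_sub_distrib, Finset.sum_add_distrib]
    rw [Finset.sum_comm (f := fun S T => if S = ∅ then b T else 0),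
      Finset.sum_comm (f := fun S T => if S = ∅ then (if T = ∅ then (1 : ℤ[X]) else 0) else 0)]
    simp
  rw [key _ _ (by simp) (by simp)]
  convert (sum_glue G H False).symm

theorem IsClq.one : IsClq 1 :=
  ⟨Empty, inferInstance, ⊥, by
    rw [Fintype.sum_unique, Subsingleton.elim (default : Finset Empty) ∅]
    simp⟩

theorem IsClq.vertex : IsClq (1 + X) := by
  refine ⟨Unit, inferInstance, ⊥, ?_⟩
  have : (Finset.univ : Finset (Finset Unit)) = {∅, {()}} := by decide
  rw [this, Finset.sum_pair (by decide)]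
  simp

theorem IsClq.lin (c : ℕ) : IsClq (1 + C (c : ℤ) * X) := by
  induction c with
  | zero => simpa using IsClq.one
  | succ c ih =>
    convert ih.wedge IsClq.vertex using 1
    push_cast
    rw [C_add, C_1]
    ring

open Classical in
theorem IsClq.fin {f : ℤ[X]} (hf : IsClq f) :
    ∃ (n : ℕ) (G : SimpleGraph (Fin n)) (k : Fin n → ℕ),
      f = ∑ r : (i : Fin n) → Fin (k i + 1),
        if G.IsClique {i | (r i : ℕ) ≠ 0} then X ^ (∑ i, (r i : ℕ)) else 0 := by
  obtain ⟨ι, _, G, rfl⟩ := hf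
  let e := (Fintype.equivFin ι).symm
  refine ⟨Fintype.card ι, G.comap e, fun _ => 1, ?_⟩
  symm
  refine Fintype.sum_bijective
    (fun r : Fin (Fintype.card ι) → Fin 2 => (Finset.univ.filter fun i => (r i : ℕ) ≠ 0).map e.toEmbedding)
    ⟨fun r r' h => funext fun i => ?_, fun S => ⟨fun i => if e i ∈ S then 1 else 0, ?_⟩⟩ _ _ fun r => ?_
  · have h1 := Finset.ext_iff.1 (Finset.map_injective _ h) i
    simp only [Finset.mem_filter, Finset.mem_univ, true_and] at h1
    have := (r i).2
    have := (r' i).2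
    apply Fin.ext
    omega
  · ext a
    simp only [Finset.mem_map_equiv, Finset.mem_filter, Finset.mem_univ, true_and,
      Equiv.apply_symm_apply]
    split_ifs with h <;> simp [h]
  · have h1 : ∑ i, (r i : ℕ) = (Finset.univ.filter fun i => (r i : ℕ) ≠ 0).card := by
      rw [Finset.card_filter]
      refine Finset.sum_congr rfl fun i _ => ?_
      have := (r i).2
      split_ifs <;> omega
    rw [h1, Finset.card_map]
    refine if_congr ⟨fun h a ha b hb hab => ?_, fun h a ha b hb hab => ?_⟩ rfl rfl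
    · have := h (x := e.symm a) (by simpa using ha) (y := e.symm b) (by simpa using hb)
        (by simpa using hab)
      simpa using this
    · exact h (x := e a) (by simpa using ha) (y := e b) (by simpa using hb) (by simpa using hab)

/-- All coefficients lie between `0` and `A * s ^ i`. -/
def CBd (g : ℤ[X]) (A s : ℕ) : Prop := ∀ i, 0 ≤ g.coeff i ∧ g.coeff i ≤ A * (s : ℤ) ^ i

theorem coeff_lin (c : ℤ) (g : ℤ[X]) (i : ℕ) :
    ((1 + C c * X) * g).coeff (i + 1) = g.coeff (i + 1) + c * g.coeff i := by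
  rw [add_mul, one_mul, coeff_add, mul_assoc, coeff_C_mul, coeff_X_mul]

theorem coeff_lin0 (c : ℤ) (g : ℤ[X]) : ((1 + C c * X) * g).coeff 0 = g.coeff 0 := by
  simp

theorem CBd.lin {g : ℤ[X]} {A s c : ℕ} (h : CBd g A s) (hc : c ≤ s) :
    CBd ((1 + C (c : ℤ) * X) * g) (2 * A) s := fun i => by
  have hc' : (c : ℤ) ≤ s := by exact_mod_cast hc
  cases i with
  | zero =>
    have := h 0
    rw [coeff_lin0]
    push_cast
    constructor <;> nlinarith [this.1, this.2]
  | succ i =>
    obtain ⟨h1, h2⟩ := h i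
    obtain ⟨h3, h4⟩ := h (i + 1)
    rw [coeff_lin]
    push_cast
    refine ⟨by positivity, ?_⟩
    have : (c : ℤ) * g.coeff i ≤ s * (A * s ^ i) := mul_le_mul hc' h2 h1 (by positivity)
    rw [pow_succ] at h4 ⊢
    nlinarith

/-- A clique polynomial of degree at most `j` with prescribed coefficient of `X ^ j`. -/
structure Piece (g : ℤ[X]) (j N A s : ℕ) : Prop where
  clq : IsClq g
  zero : g.coeff 0 = 1
  top : g.coeff j = N
  deg : ∀ i, j < i → g.coeff i = 0
  bd : CBd g A s

theorem Piece.lin {g : ℤ[X]} {j N A s c : ℕ} (h : Piece g j N A s) (hc : c ≤ s) :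
    Piece ((1 + C (c : ℤ) * X) * g) (j + 1) (c * N) (2 * A) s := by
  refine ⟨(IsClq.lin c).mul h.clq, by rw [coeff_lin0, h.zero], ?_, fun i hi => ?_, h.bd.lin hc⟩
  · rw [coeff_lin, h.top, h.deg _ (by omega)]
    simp
  · obtain ⟨i, rfl⟩ : ∃ i', i = i' + 1 := ⟨i - 1, by omega⟩
    rw [coeff_lin, h.deg _ (by omega), h.deg _ (by omega)]
    simp

theorem Piece.wedge {g g' : ℤ[X]} {j N N' A A' s : ℕ} (h : Piece g (j + 1) N A s)
    (h' : Piece g' (j + 1) N' A' s) : Piece (g + g' - 1) (j + 1) (N + N') (A + A') s := by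
  refine ⟨h.clq.wedge h'.clq, by simp [h.zero, h'.zero], ?_, fun i hi => ?_, fun i => ?_⟩
  · simp [h.top, h'.top, coeff_one]
  · simp [h.deg i hi, h'.deg i hi, coeff_one, show i ≠ 0 by omega]
  · obtain ⟨h1, h2⟩ := h.bd i
    obtain ⟨h3, h4⟩ := h'.bd i
    rw [coeff_sub, coeff_add, coeff_one]
    push_cast
    split_ifs with h0
    · subst h0
      rw [h.zero] at *
      constructor <;> linarith
    · constructor <;> linarith

theorem piece_full (s j : ℕ) : ∃ g, Piece g j (s ^ j) (2 ^ j) s := by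
  induction j with
  | zero =>
    refine ⟨1, IsClq.one, by simp, by simp, fun i hi => by simp [coeff_one, hi.ne'], fun i => ?_⟩
    rw [coeff_one]
    split_ifs with h
    · simp [h]
    · exact ⟨le_rfl, by positivity⟩
  | succ j ih =>
    obtain ⟨g, hg⟩ := ih
    exact ⟨_, by simpa only [pow_succ'] using hg.lin le_rfl⟩

theorem piece (s j : ℕ) : ∀ N ≤ s ^ (j + 1), ∃ g, Piece g (j + 1) N ((j + 1) * 2 ^ (j + 1)) s := by
  induction j with
  | zero =>
    intro N hN
    obtain ⟨g, hg⟩ := piece_full s 0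
    exact ⟨_, by simpa using hg.lin (c := N) (by simpa using hN)⟩
  | succ j ih =>
    intro N hN
    rcases Nat.eq_zero_or_pos s with rfl | hs
    · obtain ⟨g, hg⟩ := ih 0 (Nat.zero_le _)
      obtain rfl : N = 0 := by simpa using hN
      obtain ⟨g', hg'⟩ := piece_full 0 (j + 1)
      have k := (hg'.lin le_rfl).wedge (hg.lin le_rfl)
      rw [show 2 * 2 ^ (j + 1) + 2 * ((j + 1) * 2 ^ (j + 1)) = (j + 1 + 1) * 2 ^ (j + 1 + 1) by ring,
        zero_mul, zero_mul] at k
      exact ⟨_, k⟩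
    have hp : 0 < s ^ (j + 1) := by positivity
    obtain ⟨g, hg⟩ := ih (N % s ^ (j + 1)) (Nat.mod_lt _ hp).le
    obtain ⟨g', hg'⟩ := piece_full s (j + 1)
    have hc : N / s ^ (j + 1) ≤ s := Nat.div_le_of_le_mul (by rwa [← pow_succ])
    have k := (hg'.lin hc).wedge (hg.lin (c := 1) hs)
    rw [show 2 * 2 ^ (j + 1) + 2 * ((j + 1) * 2 ^ (j + 1)) = (j + 1 + 1) * 2 ^ (j + 1 + 1) by ring,
      one_mul, Nat.div_add_mod'] at k
    exact ⟨_, k⟩

theorem exists_root (a j : ℕ) : ∃ s, a ≤ s ^ (j + 1) ∧ s ^ (j + 1) ≤ 2 ^ (j + 1) * a := by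
  have ex : ∃ s, a ≤ s ^ (j + 1) := ⟨a, Nat.le_self_pow (by omega) a⟩
  refine ⟨Nat.find ex, Nat.find_spec ex, ?_⟩
  rcases h : Nat.find ex with _ | _ | s
  · simp
  · have := Nat.find_min ex (m := 0) (by omega)
    rw [zero_add, one_pow]
    exact Nat.mul_pos (by positivity) (by omega)
  · have := Nat.find_min ex (m := s + 1) (by omega)
    calc (s + 1 + 1) ^ (j + 1) ≤ (2 * (s + 1)) ^ (j + 1) := Nat.pow_le_pow_left (by omega) _
      _ ≤ _ := by rw [mul_pow]; exact Nat.mul_le_mul_left _ (by omega)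

theorem IsClq.of_ineq (f : ℤ[X]) (h0 : f.coeff 0 = 1) (h1 : ∀ i, 0 ≤ f.coeff i)
    (h2 : ∀ i j, 1 ≤ i → i < j → (8 ^ j) ^ j * f.coeff j ^ i ≤ f.coeff i ^ j) : IsClq f := by
  have main : ∀ t m, m + t = f.natDegree → ∃ g, IsClq g ∧ g.coeff 0 = 1 ∧
      (∀ j, m < j → g.coeff j = f.coeff j) ∧
      ∀ i, 1 ≤ i → i ≤ m → 0 ≤ g.coeff i ∧ 2 ^ (m + 1) * g.coeff i ≤ (m + 2) * f.coeff i := by
    intro t
    induction t with
    | zero =>
      intro m hm
      refine ⟨1, IsClq.one, by simp, fun j hj => ?_, fun i hi _ => ?_⟩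
      · rw [coeff_one, if_neg (by omega), coeff_eq_zero_of_natDegree_lt (by omega)]
      · have := h1 i
        rw [coeff_one, if_neg (by omega), mul_zero]
        exact ⟨le_rfl, by positivity⟩
    | succ t ih =>
      intro m hm
      obtain ⟨g, g1, g2, g3, g4⟩ := ih (m + 1) (by omega)
      obtain ⟨g5, g6⟩ := g4 (m + 1) (by omega) le_rfl
      obtain ⟨a, ha⟩ := Int.eq_ofNat_of_zero_le (h1 (m + 1))
      have htd : ((m + 1 : ℕ) + 2 : ℤ) ≤ 2 ^ (m + 1 + 1) := by
        have := Nat.lt_two_pow_self (n := m + 1 + 1)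
        exact_mod_cast this
      have g7 : g.coeff (m + 1) ≤ a := by
        refine le_of_mul_le_mul_left (g6.trans ?_) (by positivity)
        rw [ha]
        exact mul_le_mul_of_nonneg_right htd (by positivity)
      obtain ⟨N, hN⟩ := Int.eq_ofNat_of_zero_le (sub_nonneg.2 g7)
      obtain ⟨s, s1, s2⟩ := exists_root a m
      obtain ⟨p, hp⟩ := piece s m N (le_trans (by omega) s1)
      refine ⟨g + p - 1, g1.wedge hp.clq, by simp [g2, hp.zero], fun j hj => ?_, fun i hi him => ?_⟩
      · rw [coeff_sub, coeff_add, coeff_one, if_neg (by omega), sub_zero]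
        rcases (by omega : j = m + 1 ∨ m + 1 < j) with rfl | hj'
        · rw [hp.top, ← hN, ha]
          ring
        · rw [hp.deg j hj', g3 j hj', add_zero]
      · obtain ⟨k1, k2⟩ := g4 i hi (by omega)
        obtain ⟨k3, k4⟩ := hp.bd i
        obtain ⟨b, hb⟩ := Int.eq_ofNat_of_zero_le (h1 i)
        have k5 := h2 i (m + 1) hi (by omega)
        rw [ha, hb] at k5
        have k6 : (8 ^ (m + 1)) ^ (m + 1) * a ^ i ≤ b ^ (m + 1) := by exact_mod_cast k5
        have k7 : 2 ^ (m + 1 + 1) * 2 ^ (m + 1) * 2 ^ i ≤ 8 ^ (m + 1) := by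
          rw [← pow_add, ← pow_add, show 8 = 2 ^ 3 from rfl, ← pow_mul]
          exact Nat.pow_le_pow_right (by omega) (by omega)
        have k8 : 2 ^ (m + 1 + 1) * 2 ^ (m + 1) * s ^ i ≤ b := by
          refine (Nat.pow_le_pow_iff_left (n := m + 1) (by omega)).1 (le_trans ?_ k6)
          calc (2 ^ (m + 1 + 1) * 2 ^ (m + 1) * s ^ i) ^ (m + 1)
              = (2 ^ (m + 1 + 1) * 2 ^ (m + 1)) ^ (m + 1) * (s ^ (m + 1)) ^ i := by
                rw [mul_pow _ (s ^ i), ← pow_mul s, ← pow_mul s, mul_comm i]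
            _ ≤ (2 ^ (m + 1 + 1) * 2 ^ (m + 1)) ^ (m + 1) * (2 ^ (m + 1) * a) ^ i := by gcongr
            _ = (2 ^ (m + 1 + 1) * 2 ^ (m + 1) * 2 ^ i) ^ (m + 1) * a ^ i := by
                rw [mul_pow _ (2 ^ i), mul_pow _ a, ← pow_mul 2 i, ← pow_mul 2 _ i, mul_comm i,
                  mul_assoc]
            _ ≤ _ := by gcongr
        have k9 : (2 : ℤ) ^ (m + 1 + 1) * 2 ^ (m + 1) * (s : ℤ) ^ i ≤ b := by exact_mod_cast k8
        rw [coeff_sub, coeff_add, coeff_one, if_neg (by omega), sub_zero]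
        refine ⟨by linarith, ?_⟩
        have e1 := mul_le_mul_of_nonneg_left k4 (show (0 : ℤ) ≤ 2 ^ (m + 1 + 1) by positivity)
        have e2 := mul_le_mul_of_nonneg_left k9 (show (0 : ℤ) ≤ m + 1 by positivity)
        rw [hb] at k2 ⊢
        push_cast at k2 e1
        rw [pow_succ _ (m + 1)] at k2 e1 e2
        linarith
  obtain ⟨g, g1, g2, g3, -⟩ := main f.natDegree 0 (by omega)
  convert g1
  ext j
  cases j with
  | zero => rw [h0, g2]
  | succ j => rw [g3 _ (by omega)]

end Pool.Agent.Lib.MP_8e5b3d_co
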