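import Pool.Agent.Lib.MP_8e5b3d_co.Defs

set_option autoImplicit false

namespace Pool.Agent.Lib.MP_8e5b3d_co

open LaurentPolynomial

variable {B W : Type} [Group W] {M : CoxeterMatrix B} (cs : CoxeterSystem M W)

section General

variable {R : Type} [CommRing R] (q : R)

theorem mulT_single (i : B) (w : W) (a : R) :
    mulT cs q i (Finsupp.single w a) =
      if cs.length w < cs.length (cs.simple i * w) then Finsupp.single (cs.simple i * w) a
      else (q - 1) • Finsupp.single w a + q • Finsupp.single (cs.simple i * w) a := by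
  unfold mulT
  rw [Finsupp.linearCombination_single]
  split_ifs
  · simp
  · simp only [smul_add, Finsupp.smul_single, smul_eq_mul, mul_one]
    rw [mul_comm a, mul_comm a]

theorem mulT_apply (i : B) (h : W →₀ R) (u : W) :
    mulT cs q i h u =
      if cs.length u < cs.length (cs.simple i * u) then q * h (cs.simple i * u)
      else h (cs.simple i * u) + (q - 1) * h u := by
  classical
  induction h using Finsupp.induction_linear with
  | zero => simp
  | add f g hf hg =>
    rw [map_add, Finsupp.add_apply, hf, hg]
    split_ifs <;> simp only [Finsupp.add_apply] <;> ring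
  | single w a =>
    rw [mulT_single]
    have hne : ∀ x : W, cs.simple i * x ≠ x := fun x hx => cs.length_simple_mul_ne x i (by rw [hx])
    by_cases h1 : w = u
    · subst h1
      have e1 : (Finsupp.single (cs.simple i * w) a) w = 0 :=
        Finsupp.single_eq_of_ne (hne w).symm
      have e2 : (Finsupp.single w a) (cs.simple i * w) = 0 := Finsupp.single_eq_of_ne (hne w)
      split_ifs
      · rw [e1, e2, mul_zero]
      · simp [e1, e2]
    · by_cases h2 : w = cs.simple i * u
      · subst h2
        have hl := cs.length_simple_mul_ne u i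
        rw [cs.simple_mul_simple_cancel_left]
        have e1 : (Finsupp.single (cs.simple i * u) a) u = 0 :=
          Finsupp.single_eq_of_ne (hne u).symm
        by_cases h3 : cs.length u < cs.length (cs.simple i * u)
        · rw [if_neg (by omega), if_pos h3]
          simp [e1]
        · rw [if_pos (by omega), if_neg h3]
          simp [e1]
      · have h3 : cs.simple i * w ≠ u := fun hh => h2 (by rw [← hh, cs.simple_mul_simple_cancel_left])
        have e1 : (Finsupp.single (cs.simple i * w) a) u = 0 := Finsupp.single_eq_of_ne h3.symm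
        have e2 : (Finsupp.single w a) u = 0 := Finsupp.single_eq_of_ne (Ne.symm h1)
        have e3 : (Finsupp.single w a) (cs.simple i * u) = 0 := Finsupp.single_eq_of_ne (Ne.symm h2)
        split_ifs <;> simp [e1, e2, e3]

/-- The quadratic relation. -/
theorem mulT_sq (i : B) :
    mulT cs q i * mulT cs q i = (q - 1) • mulT cs q i + q • (1 : Module.End R (W →₀ R)) := by
  refine LinearMap.ext fun h => Finsupp.ext fun u => ?_
  have hl := cs.length_simple_mul_ne u i
  simp only [Module.End.mul_apply, LinearMap.add_apply, LinearMap.smul_apply, Finsupp.add_apply,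
    Finsupp.smul_apply, smul_eq_mul, Module.End.one_apply, mulT_apply,
    cs.simple_mul_simple_cancel_left]
  by_cases h3 : cs.length u < cs.length (cs.simple i * u)
  · rw [if_pos h3, if_pos h3, if_neg (by omega)]
    ring
  · rw [if_neg h3, if_neg h3, if_pos (by omega)]
    ring

/-- The operator of a word. -/
noncomputable def opw (ω : List B) : Module.End R (W →₀ R) := (ω.map (mulT cs q)).prod

@[simp] theorem opw_nil : opw cs q [] = 1 := by simp [opw]

theorem opw_cons (i : B) (ω : List B) : opw cs q (i :: ω) = mulT cs q i * opw cs q ω := by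
  simp [opw]

theorem opw_append (ω η : List B) : opw cs q (ω ++ η) = opw cs q ω * opw cs q η := by
  simp [opw]

variable {cs} in
theorem reduced_cons {i : B} {ω : List B} (h : cs.IsReduced (i :: ω)) :
    cs.IsReduced ω ∧ cs.length (cs.wordProd ω) < cs.length (cs.simple i * cs.wordProd ω) := by
  have h1 : cs.IsReduced ω := by simpa using h.drop 1
  refine ⟨h1, ?_⟩
  have h2 := h.eq
  rw [cs.wordProd_cons] at h2
  rw [h2, h1.eq]
  simp

theorem opw_one_of_reduced {ω : List B} (h : cs.IsReduced ω) :
    opw cs q ω (Finsupp.single 1 1) = Finsupp.single (cs.wordProd ω) 1 := by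
  induction ω with
  | nil => simp
  | cons i ω ih =>
    obtain ⟨h1, h2⟩ := reduced_cons h
    rw [opw_cons, Module.End.mul_apply, ih h1, mulT_single, if_pos h2, cs.wordProd_cons]

theorem opw_apply_of_length (ω : List B) (h : W →₀ R) (u : W)
    (hu : cs.length ((cs.wordProd ω)⁻¹ * u) = ω.length + cs.length u) :
    opw cs q ω h u = q ^ ω.length * h ((cs.wordProd ω)⁻¹ * u) := by
  induction ω generalizing u with
  | nil => simp
  | cons i ω ih =>
    have e : (cs.wordProd (i :: ω))⁻¹ * u = (cs.wordProd ω)⁻¹ * (cs.simple i * u) := by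
      rw [cs.wordProd_cons, mul_inv_rev, cs.inv_simple, mul_assoc]
    rw [e] at hu ⊢
    have h1 := cs.length_mul_le (cs.wordProd ω)⁻¹ (cs.simple i * u)
    have h2 := cs.length_wordProd_le ω
    rw [cs.length_inv] at h1
    have h3 := cs.length_simple_mul u i
    simp only [List.length_cons] at hu ⊢
    rw [opw_cons, Module.End.mul_apply, mulT_apply, if_pos (by omega), ih _ (by omega)]
    ring

/-- Every element in the support is the product of a subword. -/
def SuppIn (h : W →₀ R) (ω : List B) : Prop :=
  ∀ u, h u ≠ 0 → ∃ η : List B, η.Sublist ω ∧ cs.wordProd η = u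

theorem suppIn_opw (ω : List B) : SuppIn cs (opw cs q ω (Finsupp.single 1 1)) ω := by
  induction ω with
  | nil =>
    intro u hu
    refine ⟨[], List.Sublist.refl _, ?_⟩
    by_contra hne
    apply hu
    simp only [opw_nil, Module.End.one_apply]
    exact Finsupp.single_eq_of_ne (by simpa [eq_comm] using hne)
  | cons i ω ih =>
    intro u hu
    rw [opw_cons, Module.End.mul_apply, mulT_apply] at hu
    by_cases h1 : opw cs q ω (Finsupp.single 1 1) (cs.simple i * u) = 0
    · by_cases h2 : opw cs q ω (Finsupp.single 1 1) u = 0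
      · rw [h1, h2] at hu
        simp at hu
      · obtain ⟨η, hη, he⟩ := ih _ h2
        exact ⟨η, hη.cons _, he⟩
    · obtain ⟨η, hη, he⟩ := ih _ h1
      refine ⟨i :: η, hη.cons_cons _, ?_⟩
      rw [cs.wordProd_cons, he, cs.simple_mul_simple_cancel_left]

end General

section Natural

variable {R S : Type} [CommRing R] [CommRing S] (φ : R →+* S) (q : R)

theorem mapRange_mulT (i : B) (h : W →₀ R) :
    Finsupp.mapRange φ (map_zero φ) (mulT cs q i h) =
      mulT cs (φ q) i (Finsupp.mapRange φ (map_zero φ) h) := by
  ext u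
  simp only [Finsupp.mapRange_apply, mulT_apply]
  split_ifs <;> simp

theorem mapRange_opw (ω : List B) (h : W →₀ R) :
    Finsupp.mapRange φ (map_zero φ) (opw cs q ω h) =
      opw cs (φ q) ω (Finsupp.mapRange φ (map_zero φ) h) := by
  induction ω with
  | nil => simp
  | cons i ω ih => rw [opw_cons, opw_cons, Module.End.mul_apply, Module.End.mul_apply,
      mapRange_mulT, ih]

end Natural

section Degree

open Polynomial

/-- Weighted degree bound. -/
def Bd (h : W →₀ ℤ[X]) (N : ℕ) : Prop :=
  ∀ u, h u ≠ 0 → 2 * (h u).natDegree + cs.length u ≤ N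

variable {cs}

theorem Bd.mono {h : W →₀ ℤ[X]} {N N' : ℕ} (hh : Bd cs h N) (hN : N ≤ N') : Bd cs h N' :=
  fun u hu => (hh u hu).trans hN

theorem Bd.add {h g : W →₀ ℤ[X]} {N : ℕ} (hh : Bd cs h N) (hg : Bd cs g N) : Bd cs (h + g) N := by
  intro u hu
  rw [Finsupp.add_apply] at hu ⊢
  by_cases h1 : h u = 0
  · rw [h1, zero_add] at hu ⊢
    exact hg u hu
  by_cases h2 : g u = 0
  · rw [h2, add_zero] at hu ⊢
    exact hh u hu
  have := natDegree_add_le (h u) (g u)
  have a1 := hh u h1
  have a2 := hg u h2
  omega

theorem Bd.sum {ι : Type} (s : Finset ι) (f : ι → W →₀ ℤ[X]) {N : ℕ}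
    (hf : ∀ x ∈ s, Bd cs (f x) N) : Bd cs (∑ x ∈ s, f x) N := by
  classical
  induction s using Finset.induction_on with
  | empty => intro u hu; simp at hu
  | insert a s ha ih =>
    rw [Finset.sum_insert ha]
    exact (hf a (Finset.mem_insert_self _ _)).add
      (ih fun x hx => hf x (Finset.mem_insert_of_mem hx))

theorem bd_single (w : W) : Bd cs (Finsupp.single w 1) (cs.length w) := by
  intro u hu
  by_cases h : u = w
  · subst h; simp
  · exact absurd (Finsupp.single_eq_of_ne h) hu

theorem Bd.mulT {h : W →₀ ℤ[X]} {N : ℕ} (hh : Bd cs h N) (i : B) :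
    Bd cs (mulT cs X i h) (N + 2) := by
  intro u hu
  rw [mulT_apply] at hu ⊢
  have hl := cs.length_simple_mul u i
  have d1 : ∀ p : ℤ[X], (X * p).natDegree ≤ p.natDegree + 1 := fun p =>
    natDegree_mul_le.trans (by simp [add_comm])
  have d2 : ∀ p : ℤ[X], ((X - 1) * p).natDegree ≤ p.natDegree + 1 := fun p => by
    refine natDegree_mul_le.trans ?_
    have : (X - 1 : ℤ[X]).natDegree ≤ 1 := by compute_degree
    omega
  split_ifs at hu ⊢ with h3
  · have h4 : h (cs.simple i * u) ≠ 0 := fun h0 => hu (by rw [h0, mul_zero])
    have := hh _ h4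
    have := d1 (h (cs.simple i * u))
    omega
  · by_cases h1 : h (cs.simple i * u) = 0
    · rw [h1, zero_add] at hu ⊢
      have h4 : h u ≠ 0 := fun h0 => hu (by rw [h0, mul_zero])
      have := hh _ h4
      have := d2 (h u)
      omega
    · have a1 := hh _ h1
      by_cases h2 : h u = 0
      · rw [h2, mul_zero, add_zero]
        omega
      · have a2 := hh _ h2
        have := d2 (h u)
        have := natDegree_add_le (h (cs.simple i * u)) ((X - 1) * h u)
        omega

theorem bd_opw (ω : List B) :
    Bd cs (opw cs (X : ℤ[X]) ω (Finsupp.single 1 1)) (2 * ω.length) := by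
  induction ω with
  | nil => simpa using bd_single (cs := cs) 1
  | cons i ω ih =>
    rw [opw_cons, Module.End.mul_apply]
    exact (ih.mulT i).mono (by simp only [List.length_cons]; omega)

end Degree

end Pool.Agent.Lib.MP_8e5b3d_co
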