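import Pool.Agent.Lib.MP_8e5b3d_co.Trace

set_option autoImplicit false

namespace Pool.Agent.Lib.MP_8e5b3d_co

open LaurentPolynomial

variable {n L : ℕ} (k : Fin n → ℕ)
variable {W : Type} [Group W] {G : SimpleGraph (Fin n)} (cs : CoxeterSystem (cmat G L) W)

theorem opw_flatMap {B W α R : Type} [Group W] {M : CoxeterMatrix B} (cs : CoxeterSystem M W)
    [CommRing R] (q : R) (l : List α) (u : α → List B) :
    opw cs q (l.flatMap u) = (l.map fun i => opw cs q (u i)).prod := by
  induction l with
  | nil => simp
  | cons x l ih => rw [List.flatMap_cons, opw_append, ih, List.map_cons, List.prod_cons]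

/-- Left factor of a vertex. -/
noncomputable def opA (i : Fin n) : Module.End ℤ[T;T⁻¹] (W →₀ ℤ[T;T⁻¹]) :=
  ∑ r ∈ Finset.range (k i + 1), opw cs (T 2) (xw L i r)

/-- Right factor of a vertex. -/
noncomputable def opB (i : Fin n) : Module.End ℤ[T;T⁻¹] (W →₀ ℤ[T;T⁻¹]) :=
  ∑ r ∈ Finset.range (k i + 1), opw cs (T 2) (xw L i r).reverse

/-- The element `1 + T_s`. -/
noncomputable def opE (s : Gen n L) : Module.End ℤ[T;T⁻¹] (W →₀ ℤ[T;T⁻¹]) := 1 + mulT cs (T 2) s

theorem letter_add_two (i : Fin n) (j : ℕ) : letter L i (j + 2) = letter L i j := by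
  simp [letter]

theorem bi_opA (i : Fin n) : BI cs (opA k cs i * opE cs (.inl (i, false))) (k i + 1) :=
  BI.dihedral_left (g := fun j => mulT cs (T 2) (letter L i j))
    (x := fun r => opw cs (T 2) (xw L i r)) (fun j => by rw [letter_add_two])
    (fun j => mulT_sq cs _ _) (opw_nil cs _) (fun j => opw_cons cs _ _ _)
    (fun j => BI.gen (cmat_RA G L) _) _

theorem bi_opB (i : Fin n) : BI cs (opE cs (.inl (i, false)) * opB k cs i) (k i + 1) :=
  BI.dihedral_right (g := fun j => mulT cs (T 2) (letter L i j))
    (x := fun r => opw cs (T 2) (xw L i r).reverse) (fun j => by rw [letter_add_two])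
    (fun j => mulT_sq cs _ _) (opw_nil cs _)
    (fun j => by rw [xw, List.reverse_cons, opw_append, opw_cons, opw_nil, mul_one])
    (fun j => BI.gen (cmat_RA G L) _) _

theorem opE_sq (s : Gen n L) : opE cs s * opE cs s = (1 + T 2 : ℤ[T;T⁻¹]) • opE cs s := by
  unfold opE
  rw [add_mul, one_mul, mul_add, mul_one, mulT_sq]
  module

theorem commute_opE_opw {s : Gen n L} {ω : List (Gen n L)} (h : ∀ t ∈ ω, cmat G L s t = 2) :
    Commute (opE cs s) (opw cs (T 2) ω) := by
  refine Commute.add_left (Commute.one_left _) (Commute.list_prod_right _ _ fun y hy => ?_)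
  obtain ⟨t, ht, rfl⟩ := List.mem_map.mp hy
  exact mulT_comm cs (cmat_RA G L) _ (h t ht)

theorem commute_opE_opE {s t : Gen n L} (h : cmat G L s t = 2) :
    Commute (opE cs s) (opE cs t) := by
  have := commute_opE_opw cs (s := s) (ω := [t]) (by simpa using h)
  rw [opw_cons, opw_nil, mul_one] at this
  exact Commute.add_right (Commute.one_right _) this

theorem entry_b {i j : Fin n} (h : i ≠ j) (y : Bool) :
    cmat G L (.inl (i, false)) (.inl (j, y)) = 2 := by
  simp [cmat_apply, entry, h]

theorem commute_opE_opA {i j : Fin n} (h : i ≠ j) :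
    Commute (opE cs (.inl (i, false))) (opA k cs j) :=
  Commute.sum_right _ _ _ fun _ _ => commute_opE_opw cs fun t ht => by
    obtain ⟨y, rfl⟩ := mem_xw ht
    exact entry_b h y

theorem commute_opE_opB {i j : Fin n} (h : i ≠ j) :
    Commute (opE cs (.inl (i, false))) (opB k cs j) :=
  Commute.sum_right _ _ _ fun _ _ => commute_opE_opw cs fun t ht => by
    obtain ⟨y, rfl⟩ := mem_xw (List.mem_reverse.mp ht)
    exact entry_b h y

theorem bi_sandwich (l : List (Fin n)) (hl : l.Nodup) (Z : Module.End ℤ[T;T⁻¹] (W →₀ ℤ[T;T⁻¹]))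
    (m : ℕ) (hZ : BI cs Z m) (hc : ∀ i ∈ l, Commute (opE cs (.inl (i, false))) Z) :
    BI cs ((l.map fun i => opA k cs i * opE cs (.inl (i, false))).prod * Z *
      (l.map (opB k cs)).prod) (m + (l.map fun i => 2 * k i + 1).sum) := by
  induction l generalizing Z m with
  | nil => simpa using hZ
  | cons i l ih =>
    obtain ⟨h1, h2⟩ := List.nodup_cons.mp hl
    have hne : ∀ j ∈ l, j ≠ i := fun j hj h => h1 (h ▸ hj)
    have h3 := ih h2 (Z * (opE cs (.inl (i, false)) * opB k cs i)) _ (hZ.mul (bi_opB k cs i))
      fun j hj => (hc j (List.mem_cons_of_mem _ hj)).mul_right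
        ((commute_opE_opE cs (entry_b (hne j hj) false)).mul_right
          (commute_opE_opB k cs (hne j hj)))
    have h4 := (bi_opA k cs i).mul h3
    have c1 : Commute (opE cs (.inl (i, false)))
        (l.map fun i => opA k cs i * opE cs (.inl (i, false))).prod := by
      refine Commute.list_prod_right _ _ fun y hy => ?_
      obtain ⟨j, hj, rfl⟩ := List.mem_map.mp hy
      exact (commute_opE_opA k cs (hne j hj).symm).mul_right
        (commute_opE_opE cs (entry_b (hne j hj).symm false))
    have c2 := (c1.mul_right (hc i List.mem_cons_self)).eq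
    refine BI.cancel ?_
    simp only [List.map_cons, List.prod_cons, List.sum_cons]
    generalize (l.map fun i => opA k cs i * opE cs (.inl (i, false))).prod = P at *
    generalize (l.map (opB k cs)).prod = Q at *
    have e : opA k cs i * opE cs (.inl (i, false)) *
        (P * (Z * (opE cs (.inl (i, false)) * opB k cs i)) * Q) =
        (1 + T 2 : ℤ[T;T⁻¹]) •
          (opA k cs i * opE cs (.inl (i, false)) * P * Z * (opB k cs i * Q)) := by
      calc _ = opA k cs i * (opE cs (.inl (i, false)) * (P * Z * opE cs (.inl (i, false)))) *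
            (opB k cs i * Q) := by simp only [mul_assoc]
        _ = _ := by
          rw [← c2, ← mul_assoc (opE cs (.inl (i, false))), opE_sq]
          simp only [smul_mul_assoc, mul_smul_comm, mul_assoc]
    rw [← e]
    convert h4 using 1
    ring

theorem bi_blockers (l : List (Fin L)) :
    BI cs (l.map fun j => opE cs (.inr j)).prod l.length := by
  induction l with
  | nil => simpa using BI.one
  | cons j l ih =>
    have := (BI.gen (cs := cs) (cmat_RA G L) (.inr j)).mul ih
    rw [add_comm 1 l.length] at this
    exact this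

/-- The index set of the expansion. -/
abbrev Idx (L : ℕ) : Type :=
  ((i : Fin n) → Fin (k i + 1) × Bool) × (Fin L → Bool) × ((i : Fin n) → Fin (k i + 1))

/-- The word of an index. -/
def word (x : Idx k L) : List (Gen n L) := WX k L x.1 ++ WM n x.2.1 ++ WY k L x.2.2

theorem expand :
    ((List.finRange n).map fun i => opA k cs i * opE cs (.inl (i, false))).prod *
      ((List.finRange L).map fun j => opE cs (.inr j)).prod *
      ((List.finRange n).map (opB k cs)).prod = ∑ x : Idx k L, opw cs (T 2) (word k x) := by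
  have e1 : ∀ i, opA k cs i * opE cs (.inl (i, false)) =
      ∑ j : Fin (k i + 1) × Bool, opw cs (T 2) (xw L i j.1 ++ bw L i j.2) := by
    intro i
    rw [Fintype.sum_prod_type, opA, Finset.sum_mul, Finset.sum_range]
    refine Finset.sum_congr rfl fun r _ => ?_
    simp [opw_append, bw, opE, opw_cons, mul_add, add_comm]
  have e2 : ∀ j, opE cs (.inr j) = ∑ b : Bool, opw cs (T 2) (cw n j b) := by
    intro j
    simp [cw, opE, opw_cons, add_comm]
  have e3 : opB k cs = fun i => ∑ j : Fin (k i + 1), opw cs (T 2) (xw L i j).reverse := by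
    funext i
    rw [opB, Finset.sum_range]
  simp only [e1, e2, e3]
  rw [prod_sum_finRange n (fun i => Fin (k i + 1) × Bool), prod_sum_finRange L (fun _ => Bool),
    prod_sum_finRange n (fun i => Fin (k i + 1)), Fintype.sum_prod_type, Finset.sum_mul,
    Finset.sum_mul]
  refine Finset.sum_congr rfl fun g _ => ?_
  rw [Fintype.sum_prod_type, Finset.mul_sum Finset.univ _ (List.prod _), Finset.sum_mul]
  refine Finset.sum_congr rfl fun μ _ => ?_
  rw [Finset.mul_sum]
  refine Finset.sum_congr rfl fun t _ => ?_
  rw [word, opw_append, opw_append, WX, WM, WY, opw_flatMap, opw_flatMap, opw_flatMap]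

theorem bi_total : BI cs (∑ x : Idx k L, opw cs (T 2) (word k x)) (L + ∑ i, (2 * k i + 1)) := by
  have := bi_sandwich k cs (List.finRange n) (List.nodup_finRange n) _ _
    (bi_blockers cs (List.finRange L)) (fun i _ => Commute.list_prod_right _ _ fun y hy => by
      obtain ⟨j, _, rfl⟩ := List.mem_map.mp hy
      exact commute_opE_opE cs (by simp [cmat_apply, entry]))
  rwa [expand, List.length_finRange, ← Fin.sum_univ_def] at this

/-- The index of the full word. -/
def top (L : ℕ) : Idx k L := (fun i => (Fin.last (k i), true), fun _ => true, fun i => Fin.last (k i))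

theorem word_sublist (x : Idx k L) : (word k x).Sublist (word k (top k L)) := by
  refine List.Sublist.append (List.Sublist.append ?_ ?_) ?_
  · refine List.Sublist.flatMap_right _ fun i _ => List.Sublist.append
      (xw_sublist i (Fin.le_last _)) ?_
    unfold bw
    split_ifs <;> simp_all [top]
  · refine List.Sublist.flatMap_right _ fun i _ => ?_
    unfold cw
    split_ifs <;> simp_all [top]
  · exact List.Sublist.flatMap_right _ fun i _ => (xw_sublist i (Fin.le_last _)).reverse

theorem length_top : (word k (top k L)).length = L + ∑ i, (2 * k i + 1) := by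
  simp only [word, top, List.length_append, length_WX, length_WM, length_WY, if_true,
    Fin.val_last, Finset.sum_const, Finset.card_univ, Fintype.card_fin, smul_eq_mul, mul_one,
    Finset.sum_add_distrib, ← Finset.mul_sum]
  ring

theorem length_lt (x : Idx k L) (hx : x ≠ top k L) :
    (word k x).length < (word k (top k L)).length := by
  obtain ⟨g, μ, t⟩ := x
  simp only [word, top, List.length_append, length_WX, length_WM, length_WY, if_true,
    Fin.val_last]
  have a1 : ∀ i, (((g i).1 : ℕ) + if (g i).2 = true then 1 else 0) ≤ k i + 1 := fun i => by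
    have := (g i).1.is_lt
    split_ifs <;> omega
  have a2 : ∀ j, (if μ j = true then 1 else 0) ≤ 1 := fun j => by split_ifs <;> omega
  have a3 : ∀ i, (t i : ℕ) ≤ k i := fun i => Nat.lt_succ_iff.mp (t i).is_lt
  have b1 := Finset.sum_le_sum (s := Finset.univ) fun i _ => a1 i
  have b2 := Finset.sum_le_sum (s := Finset.univ) fun i _ => a2 i
  have b3 := Finset.sum_le_sum (s := Finset.univ) fun i _ => a3 i
  by_contra hlt
  apply hx
  have c1 := (Finset.sum_eq_sum_iff_of_le (s := Finset.univ) fun i _ => a1 i).mp (by omega)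
  have c2 := (Finset.sum_eq_sum_iff_of_le (s := Finset.univ) fun i _ => a2 i).mp (by omega)
  have c3 := (Finset.sum_eq_sum_iff_of_le (s := Finset.univ) fun i _ => a3 i).mp (by omega)
  refine Prod.ext (funext fun i => ?_) (Prod.ext (funext fun j => ?_) (funext fun i => ?_))
  · have h1 := c1 i (Finset.mem_univ _)
    have h2 := (g i).1.is_lt
    split_ifs at h1 with h3
    · exact Prod.ext (Fin.ext (by simp only [top, Fin.val_last]; omega)) h3
    · omega
  · have h1 := c2 j (Finset.mem_univ _)
    split_ifs at h1 with h3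
    exact h3
  · exact Fin.ext (c3 i (Finset.mem_univ _))

theorem bd_lower (hL : L = ∑ i, (2 * k i + 1) + 1) (x : Idx k L) (hx : x ≠ top k L) :
    Bd cs (opw cs Polynomial.X (word k x) (Finsupp.single 1 1)) (2 * ∑ i, (2 * k i + 1)) := by
  have h1 := length_lt k x hx
  rw [length_top] at h1
  by_cases hμ : x.2.1 = fun _ => false
  · refine (bd_opw _).mono (Nat.mul_le_mul_left _ ?_)
    have h2 := (word_sublist k (x.1, fun _ : Fin L => true, x.2.2)).length_le
    rw [length_top] at h2
    simp only [word, List.length_append, hμ, WM_false, List.length_nil, length_WM, if_true,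
      Finset.sum_const, Finset.card_univ, Fintype.card_fin, smul_eq_mul, mul_one] at h2 ⊢
    omega
  · have h2 : cs.IsReduced (word k x) := reduced_full k cs _ _ (WM_ne_nil hμ) _
    rw [opw_one_of_reduced cs _ h2]
    refine (bd_single _).mono ?_
    rw [h2.eq]
    omega

open Classical in
theorem exists_column (hL : L = ∑ i, (2 * k i + 1) + 1) :
    ∃ P, IsKLColumn cs (cs.wordProd (word k (top k L))) P ∧
      P 1 = ∑ r : (i : Fin n) → Fin (k i + 1),
        if G.IsClique {i | (r i : ℕ) ≠ 0} then Polynomial.X ^ (∑ i, (r i : ℕ)) else 0 := by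
  have hL0 : 0 < L := by omega
  have hred : cs.IsReduced (word k (top k L)) :=
    reduced_full k cs _ _ (WM_ne_nil fun h => by simpa [top] using congrFun h ⟨0, hL0⟩) _
  have hlen := hred.eq
  rw [length_top] at hlen
  let P : W →₀ Polynomial ℤ := ∑ x : Idx k L, opw cs Polynomial.X (word k x) (Finsupp.single 1 1)
  let Q : W →₀ Polynomial ℤ := ∑ x ∈ Finset.univ.erase (top k L),
    opw cs Polynomial.X (word k x) (Finsupp.single 1 1)
  have hPQ : P = Finsupp.single (cs.wordProd (word k (top k L))) 1 + Q := by
    rw [← opw_one_of_reduced cs Polynomial.X hred]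
    exact (Finset.add_sum_erase _ _ (Finset.mem_univ _)).symm
  have hQ : Bd cs Q (2 * ∑ i, (2 * k i + 1)) :=
    Bd.sum _ _ fun x hx => bd_lower k cs hL x (Finset.ne_of_mem_erase hx)
  refine ⟨P, ⟨?_, ?_, ?_, ?_⟩, ?_⟩
  · have : Q (cs.wordProd (word k (top k L))) = 0 := by
      by_contra h
      have := hQ _ h
      omega
    rw [hPQ, Finsupp.add_apply, this, Finsupp.single_eq_same, add_zero]
  · intro u hu
    by_contra h
    rw [Finsupp.finsetSum_apply] at h
    obtain ⟨x, _, hx⟩ := Finset.exists_ne_zero_of_sum_ne_zero h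
    obtain ⟨η, h1, rfl⟩ := suppIn_opw cs _ _ u hx
    exact hu (bruhat_of_sublist cs (cmat_RA G L) (h1.trans (word_sublist k x)) hred)
  · intro u hu hne
    rw [hPQ, Finsupp.add_apply, Finsupp.single_eq_of_ne hne, zero_add]
    by_cases h : Q u = 0
    · have := hu.eq_or_lt.resolve_left hne
      rw [h, Polynomial.natDegree_zero]
      omega
    · have := hQ u h
      omega
  · refine ⟨(T (-(cs.length (cs.wordProd (word k (top k L))) : ℤ)) : ℤ[T;T⁻¹]) •
      (∑ x : Idx k L, opw cs (T 2) (word k x)) (Finsupp.single 1 1), fun u => ?_, ?_⟩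
    · rw [Finsupp.smul_apply, smul_eq_mul, LinearMap.sum_apply, Finsupp.finsetSum_apply,
        Finsupp.finsetSum_apply, map_sum]
      congr 1
      refine Finset.sum_congr rfl fun x _ => ?_
      have := congrArg (fun f : W →₀ ℤ[T;T⁻¹] => f u)
        (mapRange_opw cs (R := Polynomial ℤ) (S := ℤ[T;T⁻¹])
          (Polynomial.aeval (R := ℤ) (T 2 : ℤ[T;T⁻¹])).toRingHom Polynomial.X (word k x)
          (Finsupp.single 1 1))
      simpa using this.symm
    · have h1 : bar cs (Finsupp.single 1 1) = Finsupp.single 1 1 := by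
        have := barT_of_reduced cs (cmat_RA G L) (ω := []) (by simp [CoxeterSystem.IsReduced])
        rw [cs.wordProd_nil] at this
        rw [bar_single, this]
        simp
      rw [bar_smul, bi_total k cs, h1, invert_T, smul_smul, ← T_add, hlen]
      congr 2
      push_cast
      ring
  · rw [Finsupp.finsetSum_apply, Fintype.sum_prod_type_right, Fintype.sum_prod_type,
      Finset.sum_comm]
    refine Finset.sum_congr rfl fun t _ => ?_
    simp only [word, trace_term k cs hL0]
    rw [Finset.sum_eq_single (fun _ => false), Finset.sum_eq_single (fun i => (t i, false))]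
    · simp
    · intro b _ hb
      rw [if_neg fun h => hb h.2.1]
    · simp
    · intro b _ hb
      exact Finset.sum_eq_zero fun _ _ => if_neg fun h => hb h.1
    · simp

end Pool.Agent.Lib.MP_8e5b3d_co
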