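import Pool.Agent.Lib.MP_8e5b3d_co.Unique

set_option autoImplicit false

namespace Pool.Agent.Lib.MP_8e5b3d_co

variable {B W : Type} [Group W] {M : CoxeterMatrix B} (cs : CoxeterSystem M W)

/-- Right-angled Coxeter matrices. -/
def RA (M : CoxeterMatrix B) : Prop := ∀ i j, i ≠ j → M i j = 0 ∨ M i j = 2

/-- Combinatorial left descent of a word. -/
def LD (M : CoxeterMatrix B) (s : B) : List B → Prop
  | [] => False
  | t :: ω => s = t ∨ (M s t = 2 ∧ LD M s ω)

theorem simple_comm {s t : B} (h : M s t = 2) :
    cs.simple s * cs.simple t = cs.simple t * cs.simple s := by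
  have := cs.simple_mul_simple_pow s t
  rw [h, pow_two] at this
  have h2 : cs.simple s * cs.simple t = (cs.simple s * cs.simple t)⁻¹ :=
    eq_inv_of_mul_eq_one_left this
  rw [h2, mul_inv_rev, cs.inv_simple, cs.inv_simple]

theorem LD.split {s : B} {ω : List B} (h : LD M s ω) :
    ∃ a b, ω = a ++ s :: b ∧ ∀ t ∈ a, M s t = 2 := by
  induction ω with
  | nil => exact h.elim
  | cons t ω ih =>
    rcases h with rfl | ⟨h1, h2⟩
    · exact ⟨[], ω, rfl, by simp⟩
    · obtain ⟨a, b, rfl, hab⟩ := ih h2
      refine ⟨t :: a, b, rfl, ?_⟩
      intro x hx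
      rcases List.mem_cons.mp hx with rfl | hx
      · exact h1
      · exact hab x hx

theorem prod_move {N : Type} [Monoid N] (f : B → N) (s : B) (a b : List B)
    (h : ∀ t ∈ a, Commute (f s) (f t)) :
    ((a ++ s :: b).map f).prod = f s * ((a ++ b).map f).prod := by
  have : Commute (f s) (a.map f).prod := by
    refine Commute.list_prod_right _ _ ?_
    intro x hx
    obtain ⟨t, ht, rfl⟩ := List.mem_map.mp hx
    exact h t ht
  simp only [List.map_append, List.map_cons, List.prod_append, List.prod_cons]
  rw [← mul_assoc, ← this.eq, mul_assoc]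

theorem wordProd_move {s : B} {a : List B} (b : List B) (h : ∀ t ∈ a, M s t = 2) :
    cs.wordProd (a ++ s :: b) = cs.simple s * cs.wordProd (a ++ b) :=
  prod_move cs.simple s a b fun t ht => simple_comm cs (h t ht)

theorem LD.lt {s : B} {ω : List B} (h : LD M s ω) :
    cs.length (cs.simple s * cs.wordProd ω) < ω.length := by
  obtain ⟨a, b, rfl, hab⟩ := h.split
  rw [wordProd_move cs b hab, cs.simple_mul_simple_cancel_left]
  have := cs.length_wordProd_le (a ++ b)
  simp only [List.length_append, List.length_cons] at this ⊢
  omega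

theorem not_LD_of_reduced {s : B} {ω : List B} (h : cs.IsReduced (s :: ω)) : ¬ LD M s ω := by
  intro hl
  have h1 := hl.lt cs
  obtain ⟨h2, h3⟩ := reduced_cons h
  have := h2.eq
  omega

open Classical in
/-- The action of a generator on weight coordinates. -/
noncomputable def sig (M : CoxeterMatrix B) (s : B) : Function.End (B → ℤ) :=
  fun l t => if t = s then -l s else if M s t = 2 then l t else l t + 2 * l s

theorem sig_liftable (hM : RA M) : M.IsLiftable (sig M) := by
  classical
  intro i j
  by_cases hij : i = j
  · subst hij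
    rw [M.diagonal, pow_one]
    funext l t
    simp only [Function.End.mul_def, Function.comp_apply, sig, Function.End.one_def, id]
    split_ifs with h1 h2
    · subst h1; simp
    · rfl
    · ring
  · rcases hM i j hij with h | h
    · rw [h, pow_zero]
    · have h' : M j i = 2 := by rw [M.symmetric]; exact h
      rw [h, pow_two]
      funext l t
      simp only [Function.End.mul_def, Function.comp_apply, sig, Function.End.one_def, id,
        if_neg hij, if_neg (Ne.symm hij), if_pos h, if_pos h', if_true]
      by_cases h1 : t = i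
      · subst h1
        simp
      · by_cases h2 : t = j
        · subst h2
          simp [h1, h]
        · simp only [if_neg h1, if_neg h2]
          split_ifs <;> ring

/-- The weight vector of a group element. -/
noncomputable def lam (hM : RA M) (x : W) : B → ℤ :=
  cs.lift ⟨sig M, sig_liftable hM⟩ x (fun _ => 1)

theorem lam_mul (hM : RA M) (s : B) (x : W) :
    lam cs hM (cs.simple s * x) = sig M s (lam cs hM x) := by
  unfold lam
  rw [map_mul, cs.lift_apply_simple]
  rfl

theorem lam_inv (hM : RA M) {ω : List B} (h : cs.IsReduced ω) :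
    (∀ t, lam cs hM (cs.wordProd ω) t ≠ 0) ∧
    (∀ t, lam cs hM (cs.wordProd ω) t < 0 → LD M t ω) ∧
    (∀ t r, t ≠ r → M t r ≠ 2 → 0 < lam cs hM (cs.wordProd ω) t + lam cs hM (cs.wordProd ω) r) := by
  classical
  induction ω with
  | nil =>
    have : lam cs hM (cs.wordProd []) = fun _ => 1 := by
      unfold lam
      rw [cs.wordProd_nil, map_one]
      rfl
    rw [this]
    simp
  | cons s ω ih =>
    obtain ⟨i1, i2, i3⟩ := ih (reduced_cons h).1
    have hs : 0 < lam cs hM (cs.wordProd ω) s := by
      have a1 := i1 s
      have a2 := mt (i2 s) (not_LD_of_reduced cs h)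
      omega
    rw [cs.wordProd_cons, lam_mul]
    refine ⟨fun t => ?_, fun t => ?_, fun t r htr hm => ?_⟩
    · unfold sig
      split_ifs with h1 h2
      · omega
      · exact i1 t
      · have := i3 s t (Ne.symm h1) h2
        omega
    · unfold sig
      split_ifs with h1 h2
      · exact fun _ => Or.inl h1
      · exact fun h3 => Or.inr ⟨by rw [M.symmetric]; exact h2, i2 t h3⟩
      · have := i3 s t (Ne.symm h1) h2
        intro h3
        omega
    · have a1 := i3 t r htr hm
      unfold sig
      by_cases h1 : t = s
      · subst h1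
        rw [if_pos rfl, if_neg (Ne.symm htr), if_neg hm]
        omega
      · by_cases h2 : r = s
        · subst h2
          rw [if_neg h1, if_pos rfl, if_neg (by rw [M.symmetric]; exact hm)]
          omega
        · rw [if_neg h1, if_neg h2]
          split_ifs <;> omega

theorem descent_iff_lam (hM : RA M) (x : W) (s : B) :
    cs.IsLeftDescent x s ↔ lam cs hM x s < 0 := by
  classical
  have key : ∀ y : W, lam cs hM y s < 0 → cs.IsLeftDescent y s := by
    intro y hy
    obtain ⟨ω, h1, rfl⟩ := cs.exists_isReduced y
    have := ((lam_inv cs hM h1).2.1 s hy).lt cs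
    unfold CoxeterSystem.IsLeftDescent
    rw [h1.eq]
    exact this
  refine ⟨fun h => ?_, key x⟩
  have h1 := cs.isLeftDescent_iff_not_isLeftDescent_mul.mp h
  have h2 := mt (key (cs.simple s * x)) h1
  rw [lam_mul] at h2
  unfold sig at h2
  rw [if_pos rfl] at h2
  obtain ⟨ω, h3, rfl⟩ := cs.exists_isReduced x
  have := (lam_inv cs hM h3).1 s
  omega

/-- The exchange property. -/
theorem LD_of_descent (hM : RA M) {ω : List B} (h : cs.IsReduced ω) {s : B}
    (hs : cs.IsLeftDescent (cs.wordProd ω) s) : LD M s ω :=
  (lam_inv cs hM h).2.1 s ((descent_iff_lam cs hM _ s).mp hs)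

theorem reduced_cons_of_not_LD (hM : RA M) {ω : List B} (h : cs.IsReduced ω) {s : B}
    (hs : ¬ LD M s ω) : cs.IsReduced (s :: ω) := by
  have := cs.not_isLeftDescent_iff.mp (mt (LD_of_descent cs hM h) hs)
  unfold CoxeterSystem.IsReduced
  rw [cs.wordProd_cons, this, h.eq, List.length_cons]

/-- Matsumoto's theorem in the right-angled case. -/
theorem matsumoto (hM : RA M) {N : Type} [Monoid N] (f : B → N)
    (hf : ∀ s t, M s t = 2 → Commute (f s) (f t)) {ω η : List B} (h1 : cs.IsReduced ω)
    (h2 : cs.IsReduced η) (he : cs.wordProd ω = cs.wordProd η) :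
    (ω.map f).prod = (η.map f).prod := by
  induction ω generalizing η with
  | nil =>
    have := h2.eq
    rw [← he, cs.wordProd_nil, cs.length_one] at this
    rw [List.eq_nil_of_length_eq_zero this.symm]
  | cons s ω ih =>
    obtain ⟨h3, h4⟩ := reduced_cons h1
    have hd : cs.IsLeftDescent (cs.wordProd η) s := by
      unfold CoxeterSystem.IsLeftDescent
      rw [← he, cs.wordProd_cons, cs.simple_mul_simple_cancel_left]
      exact h4
    obtain ⟨a, b, rfl, hab⟩ := (LD_of_descent cs hM h2 hd).split
    rw [wordProd_move cs b hab, cs.wordProd_cons] at he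
    have he' := mul_left_cancel he
    have h5 : cs.IsReduced (a ++ b) := by
      unfold CoxeterSystem.IsReduced
      have e1 := h1.eq
      have e2 := h2.eq
      rw [wordProd_move cs b hab, ← he', ← cs.wordProd_cons, e1] at e2
      rw [← he', h3.eq]
      simp only [List.length_cons, List.length_append] at e2 ⊢
      omega
    rw [prod_move f s a b fun t ht => hf s t (hab t ht), List.map_cons, List.prod_cons,
      ih h3 h5 he']

theorem descent_comm (hM : RA M) {s t : B} (h : M s t = 2) (x : W) :
    cs.IsLeftDescent (cs.simple t * x) s ↔ cs.IsLeftDescent x s := by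
  classical
  have hne : s ≠ t := by
    rintro rfl
    rw [M.diagonal] at h
    omega
  rw [descent_iff_lam cs hM, descent_iff_lam cs hM, lam_mul]
  unfold sig
  rw [if_neg hne, if_pos (by rw [M.symmetric]; exact h)]

theorem mulT_comm (hM : RA M) {R : Type} [CommRing R] (q : R) {s t : B} (h : M s t = 2) :
    Commute (mulT cs q s) (mulT cs q t) := by
  refine LinearMap.ext fun g => Finsupp.ext fun u => ?_
  have h' : M t s = 2 := by rw [M.symmetric]; exact h
  have d1 := descent_comm cs hM h u
  have d2 := descent_comm cs hM h' u
  have e : cs.simple t * (cs.simple s * u) = cs.simple s * (cs.simple t * u) := by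
    rw [← mul_assoc, ← mul_assoc, simple_comm cs h]
  unfold CoxeterSystem.IsLeftDescent at d1 d2
  have l1 := cs.length_simple_mul_ne u s
  have l2 := cs.length_simple_mul_ne u t
  have l3 := cs.length_simple_mul_ne (cs.simple t * u) s
  have l4 := cs.length_simple_mul_ne (cs.simple s * u) t
  simp only [Module.End.mul_apply, mulT_apply, e] at l4 d2 ⊢
  split_ifs <;> first | omega | ring

/-- A criterion for reducedness: between two occurrences of a letter there is a letter not
commuting with it. -/
theorem reduced_of_filter (hM : RA M) (ω : List B)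
    (h : ∀ s, ∃ p : B → Bool, p s = true ∧ (∀ t, p t = true → M s t ≠ 2) ∧
      ∀ a b, ω.filter p ≠ a ++ s :: s :: b) : cs.IsReduced ω := by
  induction ω with
  | nil => simp [CoxeterSystem.IsReduced]
  | cons s ω ih =>
    refine reduced_cons_of_not_LD cs hM (ih fun r => ?_) fun hl => ?_
    · obtain ⟨p, p1, p2, p3⟩ := h r
      refine ⟨p, p1, p2, fun a b he => ?_⟩
      by_cases hs : p s = true
      · exact p3 (s :: a) b (by rw [List.filter_cons_of_pos hs, he]; rfl)
      · exact p3 a b (by rw [List.filter_cons_of_neg hs, he])
    · obtain ⟨p, p1, p2, p3⟩ := h s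
      obtain ⟨a, b, rfl, hab⟩ := hl.split
      refine p3 [] (b.filter p) ?_
      have : a.filter p = [] := List.filter_eq_nil_iff.mpr fun t ht hp => p2 t hp (hab t ht)
      rw [List.filter_cons_of_pos p1, List.filter_append, this, List.filter_cons_of_pos p1]
      rfl

theorem filter_eq_of_eq (hM : RA M) (p : B → Bool)
    (hp : ∀ s t, p s = true → p t = true → M s t ≠ 2) {ω η : List B} (h1 : cs.IsReduced ω)
    (h2 : cs.IsReduced η) (he : cs.wordProd ω = cs.wordProd η) : ω.filter p = η.filter p := by
  let f : B → FreeMonoid B := fun s => if p s = true then FreeMonoid.of s else 1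
  have key : ∀ l : List B, FreeMonoid.toList (l.map f).prod = l.filter p := by
    intro l
    induction l with
    | nil => rfl
    | cons s l ih =>
      rw [List.map_cons, List.prod_cons, FreeMonoid.toList_mul, ih]
      by_cases hs : p s = true
      · rw [List.filter_cons_of_pos hs]
        simp [f, hs]
      · rw [List.filter_cons_of_neg hs]
        simp [f, hs]
  rw [← key, ← key, matsumoto cs hM f ?_ h1 h2 he]
  intro s t hst
  by_cases hs : p s = true
  · have ht : ¬ p t = true := fun ht => hp s t hs ht hst
    simp [f, ht]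
  · simp [f, hs]

end Pool.Agent.Lib.MP_8e5b3d_co
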