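import Pool.Agent.Lib.MP_8e5b3d_co.Words

set_option autoImplicit false

namespace Pool.Agent.Lib.MP_8e5b3d_co

variable {n L : ℕ} (k : Fin n → ℕ)
variable {W : Type} [Group W] {G : SimpleGraph (Fin n)} (cs : CoxeterSystem (cmat G L) W)

theorem reduced_append {B W : Type} [Group W] {M : CoxeterMatrix B} {cs : CoxeterSystem M W}
    {a b : List B} (h : cs.IsReduced (a ++ b)) : cs.IsReduced a ∧ cs.IsReduced b :=
  ⟨by simpa using h.take a.length, by simpa using h.drop a.length⟩

theorem WM_ne_nil {μ : Fin L → Bool} (h : μ ≠ fun _ => false) : WM n μ ≠ [] := by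
  intro h0
  apply h
  funext j
  have := List.flatMap_eq_nil_iff.mp h0 j (List.mem_finRange j)
  cases hj : μ j
  · rfl
  · simp [cw, hj] at this

theorem WM_false : WM n (fun _ : Fin L => false) = [] :=
  List.flatMap_eq_nil_iff.mpr fun _ _ => rfl

theorem reduced_WX_WY (hL : 0 < L) (g : (i : Fin n) → Fin (k i + 1) × Bool)
    (t : (i : Fin n) → Fin (k i + 1)) : cs.IsReduced (WX k L g) ∧ cs.IsReduced (WY k L t) := by
  have h := reduced_full k cs g (fun _ => true)
    (WM_ne_nil fun h => by simpa using congrFun h ⟨0, hL⟩) t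
  exact ⟨(reduced_append (reduced_append h).1).1, (reduced_append h).2⟩

theorem commute_wordProd {B W : Type} [Group W] {M : CoxeterMatrix B} (cs : CoxeterSystem M W)
    {a b : List B} (h : ∀ s ∈ a, ∀ t ∈ b, M s t = 2) :
    Commute (cs.wordProd a) (cs.wordProd b) := by
  unfold CoxeterSystem.wordProd
  refine Commute.list_prod_left _ _ fun x hx => Commute.list_prod_right _ _ fun y hy => ?_
  obtain ⟨s, hs, rfl⟩ := List.mem_map.mp hx
  obtain ⟨t, ht, rfl⟩ := List.mem_map.mp hy
  exact simple_comm cs (h s hs t ht)

theorem wordProd_flatMap {B W α : Type} [Group W] {M : CoxeterMatrix B} (cs : CoxeterSystem M W)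
    (l : List α) (u : α → List B) :
    cs.wordProd (l.flatMap u) = (l.map fun i => cs.wordProd (u i)).prod := by
  induction l with
  | nil => simp
  | cons x l ih => rw [List.flatMap_cons, cs.wordProd_append, ih, List.map_cons, List.prod_cons]

theorem cancel_of_clique (t : (i : Fin n) → Fin (k i + 1))
    (ht : G.IsClique {i | (t i : ℕ) ≠ 0}) :
    cs.wordProd (WY k L t) = (cs.wordProd (WX k L fun i => (t i, false)))⁻¹ := by
  refine eq_inv_of_mul_eq_one_right ?_
  rw [WX, WY, wordProd_flatMap, wordProd_flatMap]
  simp only [bw, Bool.false_eq_true, if_false, List.append_nil, cs.wordProd_reverse]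
  refine prod_mul_prod_inv _ (fun i => cs.wordProd (xw L i (t i))) fun i j => ?_
  by_cases hij : i = j
  · subst hij
    exact Commute.refl _
  by_cases hi : (t i : ℕ) = 0
  · simp only [hi, xw, cs.wordProd_nil]
    exact Commute.one_left _
  by_cases hj : (t j : ℕ) = 0
  · simp only [hj, xw, cs.wordProd_nil]
    exact Commute.one_right _
  have hadj : G.Adj i j := ht hi hj hij
  refine commute_wordProd cs fun a ha b hb => ?_
  obtain ⟨x, rfl⟩ := mem_xw ha
  obtain ⟨y, rfl⟩ := mem_xw hb
  simp [cmat_apply, entry, hij, hadj]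

theorem clique_of_cancel (hL : 0 < L) (g : (i : Fin n) → Fin (k i + 1) × Bool)
    (t : (i : Fin n) → Fin (k i + 1))
    (h : cs.wordProd (WY k L t) = (cs.wordProd (WX k L g))⁻¹) :
    (g = fun i => (t i, false)) ∧ G.IsClique {i | (t i : ℕ) ≠ 0} := by
  obtain ⟨h1, h2⟩ := reduced_WX_WY k cs hL g t
  have he : cs.wordProd (WX k L g) = cs.wordProd (WY k L t).reverse := by
    rw [cs.wordProd_reverse, h, inv_inv]
  have key := fun p hp => filter_eq_of_eq cs (cmat_RA G L) p hp h1 h2.reverse he
  have hg : g = fun i => (t i, false) := by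
    funext i
    have := key (Sum.elim (fun x => decide (x.1 = i)) (fun _ => false)) (by
      rintro (⟨j, y⟩ | d) (⟨j', y'⟩ | d') a1 a2
      · simp only [Sum.elim_inl, decide_eq_true_eq] at a1 a2
        subst a1 a2
        simp only [cmat_apply, entry, if_true]
        split_ifs <;> omega
      all_goals simp at a1 a2)
    rw [List.filter_reverse, filter_WX k g i _ (fun _ _ => rfl),
      filter_WY k t i _ (fun _ _ => rfl), List.reverse_reverse] at this
    have hb : (g i).2 = false := by
      by_contra hb
      rw [Bool.not_eq_false] at hb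
      have h3 : (Sum.inl (i, false) : Gen n L) ∈ (xw L i (t i)).getLast? := by
        rw [← this, bw, if_pos hb, List.getLast?_concat]
        rfl
      simpa using getLast_xw h3
    have hl := congrArg List.length this
    rw [hb] at hl
    simp only [bw, Bool.false_eq_true, if_false, List.append_nil, length_xw] at hl
    exact Prod.ext (Fin.ext hl) hb
  refine ⟨hg, ?_⟩
  have main : ∀ i j : Fin n, [i, j].Sublist (List.finRange n) → i ≠ j → (t i : ℕ) ≠ 0 →
      (t j : ℕ) ≠ 0 → G.Adj i j := by
    intro i j hs hij hi hj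
    by_contra hadj
    let p : Gen n L → Bool :=
      Sum.elim (fun x => decide ((x.1 = i ∨ x.1 = j) ∧ x.2 = true)) (fun _ => false)
    have := key p (by
      rintro (⟨a, y⟩ | d) (⟨a', y'⟩ | d') a1 a2
      · simp only [p, Sum.elim_inl, decide_eq_true_eq] at a1 a2
        obtain ⟨a1, rfl⟩ := a1
        obtain ⟨a2, rfl⟩ := a2
        have hadj' : ¬ G.Adj j i := fun hh => hadj hh.symm
        rcases a1 with rfl | rfl <;> rcases a2 with rfl | rfl <;>
          simp [cmat_apply, entry, hij, hij.symm, hadj, hadj']
      all_goals simp [p] at a1 a2)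
    have hz : ∀ x ∈ List.finRange n, x ∉ [i, j] → (xw L x (t x)).filter p = [] := by
      intro x _ hx
      rw [List.filter_eq_nil_iff]
      intro y hy
      obtain ⟨z, rfl⟩ := mem_xw hy
      simp only [List.mem_cons, List.not_mem_nil, or_false] at hx
      simp [p, hx]
    rw [hg, List.filter_reverse, WX, WY, List.filter_flatMap, List.filter_flatMap] at this
    simp only [bw, Bool.false_eq_true, if_false, List.append_nil, List.filter_reverse] at this
    rw [flatMap_eq_of_sublist hs (List.nodup_finRange n) _ hz,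
      flatMap_eq_of_sublist hs (List.nodup_finRange n) _
        (fun x h1 h2 => by rw [hz x h1 h2]; rfl)] at this
    simp only [List.flatMap_cons, List.flatMap_nil, List.append_nil, List.reverse_append,
      List.reverse_reverse] at this
    have n1 : (xw L i (t i)).filter p ≠ [] := List.ne_nil_of_mem
      (List.mem_filter.mpr ⟨mem_xw_of_pos i hi, by simp [p]⟩)
    have n2 : (xw L j (t j)).filter p ≠ [] := List.ne_nil_of_mem
      (List.mem_filter.mpr ⟨mem_xw_of_pos j hj, by simp [p]⟩)
    obtain ⟨x, l, hx⟩ := List.exists_cons_of_ne_nil n1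
    obtain ⟨y, l', hy⟩ := List.exists_cons_of_ne_nil n2
    obtain ⟨x', hx'⟩ := mem_xw (List.mem_filter.mp (hx ▸ List.mem_cons_self)).1
    obtain ⟨y', hy'⟩ := mem_xw (List.mem_filter.mp (hy ▸ List.mem_cons_self)).1
    rw [hx, hy, List.cons_append, List.cons_append, List.cons.injEq, hx', hy'] at this
    simp only [Sum.inl.injEq, Prod.mk.injEq] at this
    exact hij this.1.1
  intro i hi j hj hij
  rcases pair_sublist (List.mem_finRange i) (List.mem_finRange j) hij with hs | hs
  · exact main i j hs hij hi hj
  · exact (main j i hs hij.symm hj hi).symm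

theorem length_WX (g : (i : Fin n) → Fin (k i + 1) × Bool) :
    (WX k L g).length = ∑ i, (((g i).1 : ℕ) + if (g i).2 = true then 1 else 0) := by
  rw [WX, List.length_flatMap, Fin.sum_univ_def]
  congr 2
  funext i
  rw [List.length_append, length_xw, bw]
  split_ifs <;> rfl

theorem length_WM (μ : Fin L → Bool) :
    (WM n μ).length = ∑ j, if μ j = true then 1 else 0 := by
  rw [WM, List.length_flatMap, Fin.sum_univ_def]
  congr 2
  funext i
  rw [cw]
  split_ifs <;> rfl

theorem length_WY (t : (i : Fin n) → Fin (k i + 1)) :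
    (WY k L t).length = ∑ i, (t i : ℕ) := by
  rw [WY, List.length_flatMap, Fin.sum_univ_def]
  congr 2
  funext i
  rw [List.length_reverse, length_xw]

open Classical in
theorem trace_term (hL : 0 < L) {R : Type} [CommRing R] (q : R)
    (g : (i : Fin n) → Fin (k i + 1) × Bool) (μ : Fin L → Bool)
    (t : (i : Fin n) → Fin (k i + 1)) :
    opw cs q (WX k L g ++ WM n μ ++ WY k L t) (Finsupp.single 1 1) 1 =
      if μ = (fun _ => false) ∧ g = (fun i => (t i, false)) ∧ G.IsClique {i | (t i : ℕ) ≠ 0}
      then q ^ (∑ i, (t i : ℕ)) else 0 := by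
  by_cases hμ : μ = fun _ => false
  · obtain ⟨h1, h2⟩ := reduced_WX_WY k cs hL g t
    rw [hμ, WM_false, List.append_nil, opw_append, Module.End.mul_apply,
      opw_one_of_reduced cs q h2, opw_apply_of_length cs q _ _ _ (by simp [h1.eq]), mul_one]
    split_ifs with h
    · obtain ⟨-, rfl, h3⟩ := h
      rw [cancel_of_clique k cs t h3, Finsupp.single_eq_same, mul_one, length_WX]
      simp
    · rw [Finsupp.single_eq_of_ne, mul_zero]
      intro he
      exact h ⟨rfl, clique_of_cancel k cs hL g t he.symm⟩
  · have h1 := reduced_full k cs g μ (WM_ne_nil hμ) t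
    rw [if_neg fun h => hμ h.1, opw_one_of_reduced cs q h1, Finsupp.single_eq_of_ne]
    intro he
    have h2 := h1.eq
    rw [← he, cs.length_one] at h2
    have := List.eq_nil_of_length_eq_zero h2.symm
    simp only [List.append_eq_nil_iff] at this
    exact WM_ne_nil hμ this.1.2

end Pool.Agent.Lib.MP_8e5b3d_co
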