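import Pool.Agent.Lib.MP_8e5b3d_co.Hecke

set_option autoImplicit false

namespace Pool.Agent.Lib.MP_8e5b3d_co

open LaurentPolynomial

variable {B W : Type} [Group W] {M : CoxeterMatrix B} (cs : CoxeterSystem M W)

/-- The inverse operator of a word. -/
noncomputable def opi (ω : List B) : Module.End ℤ[T;T⁻¹] (W →₀ ℤ[T;T⁻¹]) :=
  (ω.map (mulTinv cs)).prod

@[simp] theorem opi_nil : opi cs [] = 1 := by simp [opi]

theorem opi_cons (i : B) (ω : List B) : opi cs (i :: ω) = mulTinv cs i * opi cs ω := by
  simp [opi]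

theorem barT_eq (w : W) :
    barT cs w = opi cs (cs.exists_isReduced w).choose (Finsupp.single 1 1) := rfl

theorem mulTinv_apply (i : B) (h : W →₀ ℤ[T;T⁻¹]) (u : W) :
    mulTinv cs i h u = T (-2) * mulT cs (T 2) i h u + (T (-2) - 1) * h u := by
  simp [mulTinv]

theorem opi_tri (ω : List B) :
    (∀ x, ω.length < cs.length x → opi cs ω (Finsupp.single 1 1) x = 0) ∧
    (∀ x, cs.length x = ω.length → x ≠ cs.wordProd ω → opi cs ω (Finsupp.single 1 1) x = 0) ∧
    (cs.IsReduced ω →
      opi cs ω (Finsupp.single 1 1) (cs.wordProd ω) = T (-2 * (ω.length : ℤ))) := by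
  induction ω with
  | nil =>
    refine ⟨fun x hx => ?_, fun x _ hx => ?_, fun _ => by simp⟩
    · have : x ≠ 1 := by rintro rfl; simp at hx
      simpa using Finsupp.single_eq_of_ne this
    · simpa using Finsupp.single_eq_of_ne hx
  | cons i ω ih =>
    obtain ⟨ih1, ih2, ih3⟩ := ih
    refine ⟨fun x hx => ?_, fun x hx hne => ?_, fun hred => ?_⟩
    · have hl := cs.length_simple_mul x i
      simp only [List.length_cons] at hx
      rw [opi_cons, Module.End.mul_apply, mulTinv_apply, mulT_apply, ih1 x (by omega),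
        ih1 (cs.simple i * x) (by omega)]
      simp
    · have hl := cs.length_simple_mul x i
      simp only [List.length_cons] at hx
      have h0 : opi cs ω (Finsupp.single 1 1) (cs.simple i * x) = 0 := by
        rcases hl with hl | hl
        · exact ih1 _ (by omega)
        · refine ih2 _ (by omega) fun he => hne ?_
          rw [cs.wordProd_cons, ← he, cs.simple_mul_simple_cancel_left]
      rw [opi_cons, Module.End.mul_apply, mulTinv_apply, mulT_apply, ih1 x (by omega), h0]
      simp
    · obtain ⟨h1, h2⟩ := reduced_cons hred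
      have h3 := hred.eq
      simp only [List.length_cons] at h3
      rw [opi_cons, Module.End.mul_apply, mulTinv_apply, mulT_apply,
        ih1 (cs.wordProd (i :: ω)) (by omega), cs.wordProd_cons,
        cs.simple_mul_simple_cancel_left, if_neg (by omega), ih3 h1]
      simp only [mul_zero, add_zero, List.length_cons, ← T_add]
      congr 1
      push_cast
      ring

theorem barT_tri (w x : W) (hx : cs.length w ≤ cs.length x) (hne : x ≠ w) : barT cs w x = 0 := by
  obtain ⟨h1, h2⟩ := (cs.exists_isReduced w).choose_spec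
  have h3 := h1.eq
  rw [← h2] at h3
  rw [barT_eq]
  rcases hx.lt_or_eq with hx | hx
  · exact (opi_tri cs _).1 x (by omega)
  · exact (opi_tri cs _).2.1 x (by omega) (by rw [← h2]; exact hne)

theorem barT_diag (w : W) : barT cs w w = T (-2 * (cs.length w : ℤ)) := by
  obtain ⟨h1, h2⟩ := (cs.exists_isReduced w).choose_spec
  have h3 := h1.eq
  rw [← h2] at h3
  have := (opi_tri cs _).2.2 h1
  rw [← h2, ← h3] at this
  rw [barT_eq, this]

theorem bar_single (u : W) (a : ℤ[T;T⁻¹]) :
    bar cs (Finsupp.single u a) = invert a • barT cs u := by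
  unfold bar
  rw [Finsupp.sum_single_index]
  simp

theorem bar_add (h g : W →₀ ℤ[T;T⁻¹]) : bar cs (h + g) = bar cs h + bar cs g := by
  unfold bar
  rw [Finsupp.sum_add_index']
  · simp
  · intro a b c
    rw [map_add, add_smul]

@[simp] theorem bar_zero : bar cs 0 = 0 := by simp [bar]

theorem bar_smul (a : ℤ[T;T⁻¹]) (h : W →₀ ℤ[T;T⁻¹]) : bar cs (a • h) = invert a • bar cs h := by
  induction h using Finsupp.induction_linear with
  | zero => simp
  | add f g hf hg => rw [smul_add, bar_add, bar_add, hf, hg, smul_add]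
  | single w b => rw [Finsupp.smul_single, bar_single, bar_single, smul_eq_mul, map_mul, mul_smul]

theorem bar_sub (h g : W →₀ ℤ[T;T⁻¹]) : bar cs (h - g) = bar cs h - bar cs g := by
  rw [eq_sub_iff_add_eq, ← bar_add, sub_add_cancel]

theorem coeff_aeval_two (p : Polynomial ℤ) (n : ℤ) :
    (Polynomial.aeval (T 2 : ℤ[T;T⁻¹]) p).coeff n =
      if 0 ≤ n ∧ n % 2 = 0 then p.coeff (n / 2).toNat else 0 := by
  induction p using Polynomial.induction_on' with
  | add p r hp hr =>
    rw [map_add, AddMonoidAlgebra.coeff_add, Finsupp.add_apply, hp, hr]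
    split_ifs <;> simp
  | monomial k a =>
    rw [Polynomial.aeval_monomial, T_pow, Polynomial.coeff_monomial]
    have : (algebraMap ℤ ℤ[T;T⁻¹]) a * T (k * 2) = a • (T (k * 2) : ℤ[T;T⁻¹]) := by
      rw [Algebra.smul_def]
    rw [this, AddMonoidAlgebra.coeff_smul, Finsupp.smul_apply, T_apply]
    split_ifs <;> first | omega | simp

theorem coeff_T_mul (m n : ℤ) (f : ℤ[T;T⁻¹]) : (T m * f).coeff n = f.coeff (n - m) := by
  unfold T
  rw [AddMonoidAlgebra.coeff_single_mul_apply]
  simp [sub_eq_neg_add]

/-- A bar-invariant element with small degrees vanishes. -/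
theorem eq_zero_of_bar (L : ℕ) (d : W → Polynomial ℤ) (D : W →₀ ℤ[T;T⁻¹])
    (hD : ∀ u, D u = T (-(L : ℤ)) * Polynomial.aeval (T 2 : ℤ[T;T⁻¹]) (d u))
    (hd : ∀ u, d u ≠ 0 → 2 * (d u).natDegree + cs.length u + 1 ≤ L) (hb : bar cs D = D) :
    ∀ u, d u = 0 := by
  classical
  have key : ∀ u, D u = 0 → d u = 0 := by
    intro u hu
    ext j
    have := congrArg (fun f : ℤ[T;T⁻¹] => f.coeff (2 * j - L)) (hD u)
    simp only [hu, coeff_T_mul, coeff_aeval_two] at this
    rw [if_pos (by omega)] at this
    have e : ((2 * (j : ℤ) - L - -(L : ℤ)) / 2).toNat = j := by omega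
    rw [e] at this
    simpa using this.symm
  by_contra hne
  push Not at hne
  obtain ⟨u0, hu0⟩ := hne
  have hs : D.support.Nonempty := ⟨u0, Finsupp.mem_support_iff.mpr fun h => hu0 (key _ h)⟩
  obtain ⟨u, hu, hmax⟩ := D.support.exists_max_image cs.length hs
  have hdu : d u ≠ 0 := by
    intro h0
    apply Finsupp.mem_support_iff.mp hu
    rw [hD, h0]
    simp
  have h1 : bar cs D u = invert (D u) * T (-2 * (cs.length u : ℤ)) := by
    unfold bar
    rw [Finsupp.sum, Finsupp.finsetSum_apply, Finset.sum_eq_single u]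
    · rw [Finsupp.smul_apply, barT_diag, smul_eq_mul]
    · intro x hx hxu
      rw [Finsupp.smul_apply, barT_tri cs x u (hmax x hx) hxu.symm, smul_zero]
    · intro h
      exact absurd hu h
  rw [hb, mul_comm] at h1
  have h2 := hd u hdu
  apply hdu
  ext j
  by_cases hj : (d u).natDegree < j
  · simpa using Polynomial.coeff_eq_zero_of_natDegree_lt hj
  have := congrArg (fun f : ℤ[T;T⁻¹] => f.coeff (2 * j - L)) h1
  simp only [coeff_T_mul, invert_apply] at this
  simp only [hD, coeff_T_mul, coeff_aeval_two] at this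
  rw [if_pos (by omega), if_pos (by omega)] at this
  have e : ((2 * (j : ℤ) - L - -(L : ℤ)) / 2).toNat = j := by omega
  rw [e] at this
  rw [this, Polynomial.coeff_zero]
  exact Polynomial.coeff_eq_zero_of_natDegree_lt (by omega)

variable {cs} in
theorem BruhatLE.eq_or_lt {u v : W} (h : BruhatLE cs u v) : u = v ∨ cs.length u < cs.length v := by
  induction h with
  | refl => exact Or.inl rfl
  | tail _ hbc ih =>
    obtain ⟨t, _, _, hl⟩ := hbc
    rcases ih with rfl | ih
    · exact Or.inr hl
    · exact Or.inr (ih.trans hl)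

/-- Uniqueness of the Kazhdan-Lusztig column. -/
theorem IsKLColumn.unique {v : W} {P Q : W → Polynomial ℤ} (hP : IsKLColumn cs v P)
    (hQ : IsKLColumn cs v Q) : P = Q := by
  obtain ⟨p1, p2, p3, C, p4, p5⟩ := hP
  obtain ⟨q1, q2, q3, C', q4, q5⟩ := hQ
  have := eq_zero_of_bar cs (cs.length v) (fun u => P u - Q u) (C - C')
    (fun u => by rw [Finsupp.sub_apply, p4, q4, map_sub, mul_sub]) ?_
    (by rw [bar_sub, p5, q5])
  · funext u
    exact sub_eq_zero.mp (this u)
  · intro u hu
    have hle : BruhatLE cs u v := by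
      by_contra hn
      exact hu (by rw [p2 u hn, q2 u hn, sub_zero])
    have hne : u ≠ v := by
      rintro rfl
      exact hu (by rw [p1, q1, sub_self])
    have a1 := p3 u hle hne
    have a2 := q3 u hle hne
    have := Polynomial.natDegree_sub_le (P u) (Q u)
    omega

end Pool.Agent.Lib.MP_8e5b3d_co
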