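import Mathlib

set_option autoImplicit false

namespace Pool.Agent.Lib.MP_8e5b3d_co

open Polynomial

open Classical in
theorem sum_bot {n : ℕ} (k : Fin n → ℕ) :
    (∑ r : (i : Fin n) → Fin (k i + 1),
      if (⊥ : SimpleGraph (Fin n)).IsClique {i | (r i : ℕ) ≠ 0} then
        (X : ℤ[X]) ^ (∑ i, (r i : ℕ)) else 0) =
      1 + ∑ i, ∑ j ∈ Finset.range (k i), X ^ (j + 1) := by
  let e : Option (Σ i, Fin (k i)) → (i : Fin n) → Fin (k i + 1) := fun x =>
    x.elim 0 fun y => Function.update 0 y.1 y.2.succ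
  have hz : ∀ (y : Σ i, Fin (k i)) (i : Fin n), i ≠ y.1 → e (some y) i = 0 := fun y i h => by
    simp [e, Function.update_of_ne h]
  have hs : ∀ y : Σ i, Fin (k i), e (some y) y.1 = y.2.succ := fun y => by simp [e]
  symm
  have h1 : (1 : ℤ[X]) + ∑ i, ∑ j ∈ Finset.range (k i), X ^ (j + 1) =
      ∑ x : Option (Σ i, Fin (k i)), x.elim 1 fun y => X ^ ((y.2 : ℕ) + 1) := by
    rw [Fintype.sum_option, Fintype.sum_sigma]
    simp only [Option.elim_none, Option.elim_some, Finset.sum_range]
  rw [h1]
  refine Finset.sum_of_injOn e ?_ (fun _ _ => Finset.mem_univ _) ?_ ?_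
  · rintro (_ | x) _ (_ | y) _ h
    · rfl
    · have := congrFun h y.1
      rw [hs] at this
      exact absurd this.symm (Fin.succ_ne_zero _)
    · have := congrFun h x.1
      rw [hs] at this
      exact absurd this (Fin.succ_ne_zero _)
    · obtain ⟨i, a⟩ := x
      obtain ⟨j, b⟩ := y
      have h2 := congrFun h i
      rw [hs ⟨i, a⟩] at h2
      by_cases hij : i = j
      · subst hij
        rw [hs ⟨i, b⟩] at h2
        obtain rfl : a = b := Fin.succ_injective _ h2
        rfl
      · rw [hz ⟨j, b⟩ i hij] at h2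
        exact absurd h2 (Fin.succ_ne_zero _)
  · intro r _ hr
    refine if_neg fun hc => hr ?_
    by_cases h0 : r = 0
    · exact ⟨none, by simp, h0.symm⟩
    · obtain ⟨i, hi⟩ := Function.ne_iff.mp h0
      obtain ⟨a, ha⟩ := Fin.exists_succ_eq.mpr hi
      refine ⟨some ⟨i, a⟩, by simp, funext fun j => ?_⟩
      by_cases hj : j = i
      · subst hj
        rw [hs ⟨j, a⟩, ha]
      · rw [hz ⟨i, a⟩ j hj]
        by_contra h3
        exact hc (x := j) (fun h => h3 (Fin.ext h).symm) (y := i) (fun h => hi (Fin.ext h)) hj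
  · rintro (_ | y) _
    · simp [e]
    · rw [if_pos, Finset.sum_eq_single y.1, hs]
      · simp
      · intro j _ hj
        rw [hz y j hj]
        rfl
      · simp
      · intro i hi j hj hij
        by_cases h2 : i = y.1
        · exact absurd (by rw [hz y j fun h => hij (h2.trans h.symm)]; rfl) hj
        · exact absurd (by rw [hz y i h2]; rfl) hi

theorem exists_wedge (f : ℤ[X]) (h0 : f.coeff 0 = 1)
    (h : ∀ j, 1 ≤ j → f.coeff (j + 1) ≤ f.coeff j) :
    ∃ (n : ℕ) (k : Fin n → ℕ), f = 1 + ∑ i, ∑ j ∈ Finset.range (k i), X ^ (j + 1) := by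
  classical
  have anti : Antitone fun j => f.coeff (j + 1) :=
    antitone_nat_of_succ_le fun j => h (j + 1) (by omega)
  have hz : f.coeff (f.natDegree + 1) = 0 := coeff_eq_zero_of_natDegree_lt (by omega)
  have nonneg : ∀ j, 0 ≤ f.coeff (j + 1) := fun j => by
    have := anti (Nat.le_add_right j f.natDegree)
    have h2 : f.coeff (j + f.natDegree + 1) = 0 := coeff_eq_zero_of_natDegree_lt (by omega)
    simpa [h2] using this
  have ex : ∀ i : ℕ, ∃ j, f.coeff (j + 1) ≤ i := fun i => ⟨f.natDegree, by rw [hz]; omega⟩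
  refine ⟨(f.coeff 1).toNat, fun i => Nat.find (ex i), ?_⟩
  ext j
  rw [coeff_add, finsetSum_coeff]
  simp only [finsetSum_coeff, coeff_X_pow]
  cases j with
  | zero => simp [h0]
  | succ j =>
    have e : ∀ i : Fin (f.coeff 1).toNat,
        (∑ x ∈ Finset.range (Nat.find (ex i)), if j + 1 = x + 1 then (1 : ℤ) else 0) =
          if (i : ℕ) < (f.coeff (j + 1)).toNat then 1 else 0 := by
      intro i
      simp only [add_left_inj, Finset.sum_ite_eq, Finset.mem_range, Nat.lt_find_iff]
      refine if_congr ⟨fun h1 => ?_, fun h1 m hm => ?_⟩ rfl rfl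
      · have := h1 j le_rfl
        omega
      · have := anti hm
        simp only at this
        omega
    have h1 : (f.coeff (j + 1)).toNat ≤ (f.coeff 1).toNat :=
      Int.toNat_le_toNat (anti (Nat.zero_le j))
    simp only [e]
    rw [Fin.sum_univ_eq_sum_range (fun i => if i < (f.coeff (j + 1)).toNat then (1 : ℤ) else 0),
      Finset.sum_boole]
    have h2 : (Finset.range (f.coeff 1).toNat).filter (· < (f.coeff (j + 1)).toNat) =
        Finset.range (f.coeff (j + 1)).toNat := by
      ext x
      simp only [Finset.mem_filter, Finset.mem_range]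
      omega
    rw [h2, Finset.card_range, coeff_one, if_neg (by omega), zero_add,
      Int.toNat_of_nonneg (nonneg j)]

end Pool.Agent.Lib.MP_8e5b3d_co
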