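import Pool.Agent.Lib.MP_8e5b3d_co.Bar

set_option autoImplicit false

namespace Pool.Agent.Lib.MP_8e5b3d_co

section Lists

theorem prod_sum_finRange {R : Type} [Semiring R] (m : ℕ) (ι : Fin m → Type)
    [∀ i, Fintype (ι i)] (F : (i : Fin m) → ι i → R) :
    ((List.finRange m).map fun i => ∑ j, F i j).prod =
      ∑ g : (i : Fin m) → ι i, ((List.finRange m).map fun i => F i (g i)).prod := by
  simp only [← List.ofFn_eq_map]
  induction m with
  | zero => simp
  | succ m ih =>
    rw [List.ofFn_succ, List.prod_cons, ih (fun i => ι i.succ) (fun i => F i.succ),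
      Finset.sum_mul_sum, ← Fintype.sum_prod_type',
      ← Equiv.sum_comp (Fin.consEquiv ι)]
    refine Finset.sum_congr rfl fun x _ => ?_
    rw [List.ofFn_succ, List.prod_cons]
    rfl

theorem flatMap_eq_of_sublist {α β : Type} {l' l : List α} (h : l'.Sublist l) (hl : l.Nodup)
    (u : α → List β) (hu : ∀ x ∈ l, x ∉ l' → u x = []) : l.flatMap u = l'.flatMap u := by
  induction h with
  | slnil => rfl
  | cons x h ih =>
    obtain ⟨h1, h2⟩ := List.nodup_cons.mp hl
    rw [List.flatMap_cons, hu x (List.mem_cons_self) fun hx => h1 (h.subset hx), List.nil_append,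
      ih h2 fun y hy => hu y (List.mem_cons_of_mem _ hy)]
  | cons_cons x h ih =>
    obtain ⟨h1, h2⟩ := List.nodup_cons.mp hl
    rw [List.flatMap_cons, List.flatMap_cons, ih h2]
    intro y hy hy'
    refine hu y (List.mem_cons_of_mem _ hy) fun hm => ?_
    rcases List.mem_cons.mp hm with rfl | hm
    · exact h1 hy
    · exact hy' hm

theorem flatMap_single {β : Type} {m : ℕ} (u : Fin m → List β) (i : Fin m)
    (hu : ∀ x, x ≠ i → u x = []) : (List.finRange m).flatMap u = u i := by
  rw [flatMap_eq_of_sublist (l' := [i]) (by simp) (List.nodup_finRange m) u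
    (fun x _ hx => hu x (by simpa using hx))]
  simp

theorem pair_sublist {α : Type} {l : List α} {i j : α} (hi : i ∈ l) (hj : j ∈ l) (hij : i ≠ j) :
    [i, j].Sublist l ∨ [j, i].Sublist l := by
  induction l with
  | nil => simp at hi
  | cons x l ih =>
    rcases List.mem_cons.mp hi with rfl | hi'
    · rcases List.mem_cons.mp hj with rfl | hj'
      · exact absurd rfl hij
      · exact Or.inl ((List.singleton_sublist.mpr hj').cons_cons _)
    · rcases List.mem_cons.mp hj with rfl | hj'
      · exact Or.inr ((List.singleton_sublist.mpr hi').cons_cons _)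
      · exact (ih hi' hj').imp (fun h => h.cons _) fun h => h.cons _

theorem prod_mul_prod_inv {α H : Type} [Group H] (l : List α) (f : α → H)
    (hc : ∀ x y, Commute (f x) (f y)) :
    (l.map f).prod * (l.map fun x => (f x)⁻¹).prod = 1 := by
  induction l with
  | nil => simp
  | cons x l ih =>
    have : Commute (f x) (l.map f).prod := by
      refine Commute.list_prod_right _ _ fun y hy => ?_
      obtain ⟨z, _, rfl⟩ := List.mem_map.mp hy
      exact hc x z
    rw [List.map_cons, List.map_cons, List.prod_cons, List.prod_cons, this.eq, mul_assoc,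
      mul_inv_cancel_left, ih]

/-- No two adjacent letters equal to `s`. -/
def NoAdj {α : Type} (s : α) (l : List α) : Prop := l.IsChain fun x y => ¬ (x = s ∧ y = s)

theorem NoAdj.ne {α : Type} {s : α} {l : List α} (h : NoAdj s l) (a b : List α) :
    l ≠ a ++ s :: s :: b := by
  rintro rfl
  exact (List.isChain_append_cons_cons.mp h).2.1 ⟨rfl, rfl⟩

theorem NoAdj.append_left {α : Type} {s : α} {l l' : List α} (h : NoAdj s l) (h' : NoAdj s l')
    (hl : ∀ x ∈ l.getLast?, x ≠ s) : NoAdj s (l ++ l') :=
  List.isChain_append.mpr ⟨h, h', fun x hx _ _ hh => hl x hx hh.1⟩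

theorem NoAdj.append_right {α : Type} {s : α} {l l' : List α} (h : NoAdj s l) (h' : NoAdj s l')
    (hl : ∀ x ∈ l'.head?, x ≠ s) : NoAdj s (l ++ l') :=
  List.isChain_append.mpr ⟨h, h', fun _ _ y hy hh => hl y hy hh.2⟩

theorem NoAdj.of_not_mem {α : Type} {s : α} {l : List α} (h : ∀ x ∈ l, x ≠ s) : NoAdj s l := by
  induction l with
  | nil => exact List.isChain_nil
  | cons x l ih =>
    have := NoAdj.append_left (l := [x]) (List.isChain_singleton x)
      (ih fun y hy => h y (List.mem_cons_of_mem _ hy))
      (fun y hy => h y (List.mem_cons.mpr (Or.inl (by simpa [eq_comm] using hy))))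
    simpa using this

theorem NoAdj.reverse {α : Type} {s : α} {l : List α} (h : NoAdj s l) : NoAdj s l.reverse := by
  unfold NoAdj at h ⊢
  rw [List.isChain_reverse]
  exact h.imp fun _ _ hh hh' => hh ⟨hh'.2, hh'.1⟩

end Lists

/-- Generators: two for each vertex, and `L` blockers. -/
abbrev Gen (n L : ℕ) : Type := (Fin n × Bool) ⊕ Fin L

variable {n L : ℕ}

open Classical in
/-- Entries of the Coxeter matrix. -/
noncomputable def entry (G : SimpleGraph (Fin n)) : Gen n L → Gen n L → ℕ
  | .inl (i, x), .inl (j, y) =>
      if i = j then (if x = y then 1 else 0)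
      else if x = true ∧ y = true ∧ ¬ G.Adj i j then 0 else 2
  | .inl (_, x), .inr _ => if x = true then 0 else 2
  | .inr _, .inl (_, y) => if y = true then 0 else 2
  | .inr c, .inr d => if c = d then 1 else 2

theorem entry_symm (G : SimpleGraph (Fin n)) (x y : Gen n L) : entry G x y = entry G y x := by
  classical
  rcases x with ⟨i, x⟩ | c <;> rcases y with ⟨j, y⟩ | d <;> simp only [entry]
  · by_cases h : i = j
    · subst h
      simp only [if_true, eq_comm]
    · rw [if_neg h, if_neg (Ne.symm h), G.adj_comm]
      by_cases h1 : G.Adj j i <;> cases x <;> cases y <;> simp [h1]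
  · simp only [eq_comm]

theorem entry_ne (G : SimpleGraph (Fin n)) (x y : Gen n L) (h : x ≠ y) :
    entry G x y = 0 ∨ entry G x y = 2 := by
  rcases x with ⟨i, x⟩ | c <;> rcases y with ⟨j, y⟩ | d <;> simp only [entry] <;>
    split_ifs <;> simp_all

/-- The Coxeter matrix. -/
noncomputable def cmat (G : SimpleGraph (Fin n)) (L : ℕ) : CoxeterMatrix (Gen n L) where
  M := Matrix.of (entry G)
  isSymm := Matrix.IsSymm.ext fun x y => entry_symm G y x
  diagonal x := by rcases x with ⟨i, x⟩ | c <;> simp [entry]
  off_diagonal x y h := by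
    have := entry_ne G x y h
    simp only [Matrix.of_apply]
    omega

theorem cmat_apply (G : SimpleGraph (Fin n)) (x y : Gen n L) : cmat G L x y = entry G x y := rfl

theorem cmat_RA (G : SimpleGraph (Fin n)) (L : ℕ) : RA (cmat G L) := fun x y h => entry_ne G x y h

/-- The letters of the alternating words. -/
def letter (L : ℕ) (i : Fin n) (r : ℕ) : Gen n L := .inl (i, decide (r % 2 = 0))

/-- The alternating word of length `r` ending in the first generator of vertex `i`. -/
def xw (L : ℕ) (i : Fin n) : ℕ → List (Gen n L)
  | 0 => []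
  | r + 1 => letter L i r :: xw L i r

theorem length_xw (i : Fin n) (r : ℕ) : (xw L i r).length = r := by
  induction r with
  | zero => rfl
  | succ r ih => rw [xw, List.length_cons, ih]

theorem mem_xw {i : Fin n} {r : ℕ} {x : Gen n L} (h : x ∈ xw L i r) : ∃ y, x = .inl (i, y) := by
  induction r with
  | zero => simp [xw] at h
  | succ r ih =>
    rcases List.mem_cons.mp h with rfl | h
    · exact ⟨_, rfl⟩
    · exact ih h

theorem xw_sublist (i : Fin n) {r t : ℕ} (h : r ≤ t) : (xw L i r).Sublist (xw L i t) := by
  induction h with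
  | refl => exact List.Sublist.refl _
  | step _ ih => exact ih.cons _

theorem getLast_xw {i : Fin n} {r : ℕ} {x : Gen n L} (h : x ∈ (xw L i r).getLast?) :
    x = .inl (i, true) := by
  induction r with
  | zero => simp [xw] at h
  | succ r ih =>
    cases r with
    | zero => simpa [xw, letter, eq_comm] using h
    | succ r => exact ih (by simpa only [xw, List.getLast?_cons_cons] using h)

theorem mem_xw_of_pos (i : Fin n) {r : ℕ} (h : r ≠ 0) : (.inl (i, true) : Gen n L) ∈ xw L i r :=
  (xw_sublist i (Nat.one_le_iff_ne_zero.mpr h)).subset (by simp [xw, letter])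

theorem noAdj_xw (s : Gen n L) (i : Fin n) (r : ℕ) : NoAdj s (xw L i r) := by
  induction r with
  | zero => exact List.isChain_nil
  | succ r ih =>
    cases r with
    | zero => exact List.isChain_singleton _
    | succ r =>
      refine List.isChain_cons_cons.mpr ⟨?_, ih⟩
      rintro ⟨h1, h2⟩
      rw [← h2] at h1
      simp only [letter, Sum.inl.injEq, Prod.mk.injEq, true_and, decide_eq_decide] at h1
      omega

/-- Optional second generator of vertex `i`. -/
def bw (L : ℕ) (i : Fin n) (β : Bool) : List (Gen n L) := if β = true then [.inl (i, false)] else []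

/-- Optional blocker. -/
def cw (n : ℕ) (j : Fin L) (β : Bool) : List (Gen n L) := if β = true then [.inr j] else []

theorem mem_bw {i : Fin n} {β : Bool} {x : Gen n L} (h : x ∈ bw L i β) : x = .inl (i, false) := by
  cases β <;> simp_all [bw]

theorem mem_cw {j : Fin L} {β : Bool} {x : Gen n L} (h : x ∈ cw n j β) : x = .inr j := by
  cases β <;> simp_all [cw]

variable (k : Fin n → ℕ)

/-- Left parts. -/
def WX (L : ℕ) (g : (i : Fin n) → Fin (k i + 1) × Bool) : List (Gen n L) :=
  (List.finRange n).flatMap fun i => xw L i (g i).1 ++ bw L i (g i).2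

/-- Middle parts. -/
def WM (n : ℕ) (μ : Fin L → Bool) : List (Gen n L) :=
  (List.finRange L).flatMap fun j => cw n j (μ j)

/-- Right parts. -/
def WY (L : ℕ) (t : (i : Fin n) → Fin (k i + 1)) : List (Gen n L) :=
  (List.finRange n).flatMap fun i => (xw L i (t i)).reverse

theorem mem_WM {μ : Fin L → Bool} {x : Gen n L} (h : x ∈ WM n μ) : ∃ j, x = .inr j := by
  obtain ⟨j, _, hj⟩ := List.mem_flatMap.mp h
  exact ⟨j, mem_cw hj⟩

theorem filter_WX (g : (i : Fin n) → Fin (k i + 1) × Bool) (i : Fin n) (p : Gen n L → Bool)
    (hp : ∀ j y, p (.inl (j, y)) = decide (j = i)) :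
    (WX k L g).filter p = xw L i (g i).1 ++ bw L i (g i).2 := by
  rw [WX, List.filter_flatMap, flatMap_single _ i, List.filter_eq_self]
  · intro x hx
    rcases List.mem_append.mp hx with hx | hx
    · obtain ⟨y, rfl⟩ := mem_xw hx
      simp [hp]
    · rw [mem_bw hx]
      simp [hp]
  · intro j hj
    rw [List.filter_eq_nil_iff]
    intro x hx
    rcases List.mem_append.mp hx with hx | hx
    · obtain ⟨y, rfl⟩ := mem_xw hx
      simp [hp, hj]
    · rw [mem_bw hx]
      simp [hp, hj]

theorem filter_WY (t : (i : Fin n) → Fin (k i + 1)) (i : Fin n) (p : Gen n L → Bool)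
    (hp : ∀ j y, p (.inl (j, y)) = decide (j = i)) :
    (WY k L t).filter p = (xw L i (t i)).reverse := by
  rw [WY, List.filter_flatMap, flatMap_single _ i, List.filter_eq_self]
  · intro x hx
    obtain ⟨y, rfl⟩ := mem_xw (List.mem_reverse.mp hx)
    simp [hp]
  · intro j hj
    rw [List.filter_eq_nil_iff]
    intro x hx
    obtain ⟨y, rfl⟩ := mem_xw (List.mem_reverse.mp hx)
    simp [hp, hj]

theorem noAdj_bw (s : Gen n L) (i : Fin n) (β : Bool) : NoAdj s (bw L i β) := by
  cases β
  · exact List.isChain_nil
  · exact List.isChain_singleton _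

variable {W : Type} [Group W] {G : SimpleGraph (Fin n)} (cs : CoxeterSystem (cmat G L) W)

theorem reduced_full (g : (i : Fin n) → Fin (k i + 1) × Bool) (μ : Fin L → Bool)
    (hμ : WM n μ ≠ []) (t : (i : Fin n) → Fin (k i + 1)) :
    cs.IsReduced (WX k L g ++ WM n μ ++ WY k L t) := by
  refine reduced_of_filter cs (cmat_RA G L) _ fun s => ?_
  rcases s with ⟨i, _ | _⟩ | c
  · refine ⟨Sum.elim (fun x => decide (x.1 = i)) (fun _ => false), by simp, ?_, ?_⟩
    · rintro (⟨j, y⟩ | d) h
      · simp only [Sum.elim_inl, decide_eq_true_eq] at h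
        subst h
        simp only [cmat_apply, entry, if_true]
        split_ifs <;> omega
      · simp at h
    · have hm : (WM n μ).filter (Sum.elim (fun x => decide (x.1 = i)) (fun _ => false)) = [] := by
        rw [List.filter_eq_nil_iff]
        intro x hx
        obtain ⟨j, rfl⟩ := mem_WM hx
        simp
      rw [List.filter_append, List.filter_append, filter_WX k g i _ (fun _ _ => rfl),
        filter_WY k t i _ (fun _ _ => rfl), hm, List.append_nil]
      refine NoAdj.ne (NoAdj.append_right (NoAdj.append_left (noAdj_xw _ _ _) (noAdj_bw _ _ _) ?_)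
        (noAdj_xw _ _ _).reverse ?_)
      · intro x hx
        rw [getLast_xw hx]
        simp
      · intro x hx
        rw [List.head?_reverse] at hx
        rw [getLast_xw hx]
        simp
  · refine ⟨Sum.elim (fun x => decide (x.1 = i)) (fun _ => true), by simp, ?_, ?_⟩
    · rintro (⟨j, y⟩ | d) h
      · simp only [Sum.elim_inl, decide_eq_true_eq] at h
        subst h
        simp only [cmat_apply, entry, if_true]
        split_ifs <;> omega
      · simp [cmat_apply, entry]
    · have hm : (WM n μ).filter (Sum.elim (fun x => decide (x.1 = i)) (fun _ => true)) =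
          WM n μ := by
        rw [List.filter_eq_self]
        intro x hx
        obtain ⟨j, rfl⟩ := mem_WM hx
        simp
      have hne : ∀ x ∈ WM n μ, x ≠ .inl (i, true) := by
        intro x hx
        obtain ⟨j, rfl⟩ := mem_WM hx
        simp
      rw [List.filter_append, List.filter_append, filter_WX k g i _ (fun _ _ => rfl),
        filter_WY k t i _ (fun _ _ => rfl), hm, List.append_assoc]
      refine NoAdj.ne (NoAdj.append_right (NoAdj.append_right (noAdj_xw _ _ _) (noAdj_bw _ _ _) ?_)
        (NoAdj.append_left (NoAdj.of_not_mem hne) (noAdj_xw _ _ _).reverse ?_) ?_)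
      · intro x hx
        rw [mem_bw (List.mem_of_mem_head? hx)]
        simp
      · exact fun x hx => hne x (List.mem_of_mem_getLast? hx)
      · intro x hx
        obtain ⟨y, l, hy⟩ := List.exists_cons_of_ne_nil hμ
        rw [hy] at hx hne
        simp only [List.cons_append, List.head?_cons, Option.mem_def, Option.some.injEq] at hx
        exact hne x (by rw [← hx]; exact List.mem_cons_self)
  · refine ⟨Sum.elim (fun _ => false) (fun d => decide (d = c)), by simp, ?_, ?_⟩
    · rintro (⟨j, y⟩ | d) h
      · simp at h
      · simp only [Sum.elim_inr, decide_eq_true_eq] at h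
        subst h
        simp
    · have h1 : (WX k L g).filter (Sum.elim (fun _ => false) (fun d => decide (d = c))) = [] := by
        rw [List.filter_eq_nil_iff]
        intro x hx
        obtain ⟨j, _, hj⟩ := List.mem_flatMap.mp hx
        rcases List.mem_append.mp hj with hj | hj
        · obtain ⟨y, rfl⟩ := mem_xw hj
          simp
        · rw [mem_bw hj]
          simp
      have h2 : (WY k L t).filter (Sum.elim (fun _ => false) (fun d => decide (d = c))) = [] := by
        rw [List.filter_eq_nil_iff]
        intro x hx
        obtain ⟨j, _, hj⟩ := List.mem_flatMap.mp hx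
        obtain ⟨y, rfl⟩ := mem_xw (List.mem_reverse.mp hj)
        simp
      rw [List.filter_append, List.filter_append, h1, h2, List.nil_append, List.append_nil, WM,
        List.filter_flatMap, flatMap_single _ c]
      · intro a b he
        have h3 := congrArg List.length he
        have h4 := List.length_filter_le
          (Sum.elim (fun _ => false) (fun d => decide (d = c))) (cw n c (μ c))
        have h5 : (cw n c (μ c)).length ≤ 1 := by
          unfold cw
          split_ifs <;> simp
        simp only [List.length_append, List.length_cons] at h3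
        omega
      · intro d hd
        rw [List.filter_eq_nil_iff]
        intro x hx
        rw [mem_cw hx]
        simp [hd]

end Pool.Agent.Lib.MP_8e5b3d_co
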